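import Pool.Agent.TH270.CB.Defs
import Pool.Agent.TH270.NG.RsLog
import Pool.Agent.TH942.MN.Sharp

/-!
# The partial Euler product at the centre against the weighted prime sum

`pc_close`: the logarithm of the partial Euler product of `L(1/2, χ)` over the prime powers `≤ n`,
minus `∑_{p ≤ n} χ(p)/√p`, minus `(1/2) log log n` if `χ² = 1`, has a limit. The squares give the
sum of `χ²(p)/(2p)` over `p ≤ √n` (Mertens' theorem, or the Tauberian theorem and `L(1, χ²) ≠ 0`).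
-/

set_option autoImplicit false

open MeasureTheory Filter Topology Set
open Pool.Agent.TH270.MC (Pc nP)
open scoped Classical

namespace Pool.Agent.TH270.CB

namespace CL

variable {q : ℕ}

/-- a continuous function whose exponential has a nonzero limit has a limit -/
lemma lim_of_exp {P : ℝ → ℂ} (hc : ContinuousOn P (Ioi 0)) {h : ℂ} (h0 : h ≠ 0)
    (ht : Tendsto (fun w => Complex.exp (P w)) (𝓝[>] 0) (𝓝 h)) :
    ∃ C, Tendsto P (𝓝[>] 0) (𝓝 C) := by
  set ℓ := Complex.log h with hℓ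
  have e0 : Complex.exp ℓ = h := Complex.exp_log h0
  have h1 : Tendsto (fun w => Complex.exp (P w - ℓ)) (𝓝[>] 0) (𝓝 1) := by
    have := ht.div_const h
    rw [div_self h0] at this
    refine this.congr fun w => ?_
    rw [Complex.exp_sub, e0]
  have h2 : ∀ᶠ w in 𝓝[>] (0 : ℝ), Complex.exp (P w - ℓ) ∈ Complex.slitPlane :=
    h1.eventually (Complex.isOpen_slitPlane.mem_nhds Complex.one_mem_slitPlane)
  obtain ⟨δ, hδ, h3⟩ := mem_nhdsGT_iff_exists_Ioo_subset.1 h2
  have hδ0 : (0 : ℝ) < δ := hδ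
  set g : ℝ → ℂ := fun w => Complex.log (Complex.exp (P w - ℓ)) with hg
  have hcP : ContinuousOn P (Ioo 0 δ) := hc.mono fun w hw => hw.1
  have hgc : ContinuousOn g (Ioo 0 δ) := by
    intro w hw
    have h4 : ContinuousWithinAt (fun w => Complex.exp (P w - ℓ)) (Ioo 0 δ) w :=
      ((hcP.sub continuousOn_const).cexp) w hw
    exact h4.clog (h3 hw)
  have hgt : Tendsto g (𝓝[>] 0) (𝓝 0) := by
    have := h1.clog Complex.one_mem_slitPlane
    rwa [Complex.log_one] at this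
  have hn : ∀ w, ∃ n : ℤ, P w - ℓ - g w = n * (2 * Real.pi * Complex.I) := by
    intro w
    have e1 : Complex.exp (P w - ℓ) = Complex.exp (g w) := by
      rw [hg]
      simp only
      rw [Complex.exp_log (Complex.exp_ne_zero _)]
    obtain ⟨n, hn⟩ := Complex.exp_eq_exp_iff_exists_int.1 e1
    exact ⟨n, by rw [hn]; ring⟩
  choose n hn using hn
  have hnc : ContinuousOn (fun w => (n w : ℝ)) (Ioo 0 δ) := by
    have h4 : ContinuousOn (fun w => ((P w - ℓ - g w).im / (2 * Real.pi))) (Ioo 0 δ) := by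
      refine ContinuousOn.div_const ?_ _
      exact Complex.continuous_im.comp_continuousOn ((hcP.sub continuousOn_const).sub hgc)
    refine h4.congr fun w _ => ?_
    simp only
    rw [hn w]
    have : ((n w : ℂ) * (2 * Real.pi * Complex.I)).im = n w * (2 * Real.pi) := by
      simp
    rw [this]
    field_simp
  have hconst : ∀ a ∈ Ioo 0 δ, ∀ b ∈ Ioo 0 δ, n a = n b := by
    have key : ∀ a ∈ Ioo 0 δ, ∀ b ∈ Ioo 0 δ, ¬ n a < n b := by
      intro a ha b hb hlt
      have h5 := isPreconnected_Ioo.intermediate_value ha hb hnc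
      have h6 : ((n a : ℝ) + 1 / 2) ∈ Icc (n a : ℝ) (n b) := by
        constructor
        · linarith
        · have : (n a : ℝ) + 1 ≤ n b := by exact_mod_cast hlt
          linarith
      obtain ⟨c, -, hc⟩ := h5 h6
      simp only at hc
      have h7 : (2 * (n c - n a) : ℝ) = 1 := by linarith
      have h8 : (2 * (n c - n a) : ℤ) = 1 := by exact_mod_cast h7
      omega
    intro a ha b hb
    exact le_antisymm (not_lt.1 (key b hb a ha)) (not_lt.1 (key a ha b hb))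
  have hm : δ / 2 ∈ Ioo 0 δ := ⟨by positivity, by linarith⟩
  refine ⟨ℓ + n (δ / 2) * (2 * Real.pi * Complex.I), ?_⟩
  have h9 : Tendsto (fun w => g w + (ℓ + n (δ / 2) * (2 * Real.pi * Complex.I))) (𝓝[>] 0)
      (𝓝 (ℓ + n (δ / 2) * (2 * Real.pi * Complex.I))) := by
    have := hgt.add_const (ℓ + n (δ / 2) * (2 * Real.pi * Complex.I))
    rwa [zero_add] at this
  refine h9.congr' ?_
  filter_upwards [Ioo_mem_nhdsGT hδ0] with w hw
  rw [← hconst w hw _ hm, ← hn w]
  ring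

/-- the character on the primes -/
noncomputable def cP (ψ : DirichletCharacter ℂ q) (n : ℕ) : ℂ := if n.Prime then ψ (n : ZMod q) else 0

lemma cP_norm (ψ : DirichletCharacter ℂ q) (n : ℕ) : ‖cP ψ n‖ ≤ 1 := by
  unfold cP
  split_ifs
  · exact ψ.norm_le_one _
  · simp

lemma cP_abs (ψ : DirichletCharacter ℂ q) : LSeries.abscissaOfAbsConv (cP ψ) ≤ 1 :=
  LSeries.abscissaOfAbsConv_le_of_le_const ⟨1, fun n _ => cP_norm ψ n⟩

lemma cP_cont (ψ : DirichletCharacter ℂ q) :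
    ContinuousOn (fun w : ℝ => LSeries (cP ψ) (1 + w)) (Ioi 0) := by
  have h1 := (LSeries_differentiableOn (cP ψ)).continuousOn
  refine h1.comp (by fun_prop) fun w hw => ?_
  have hw' : (0 : ℝ) < w := hw
  refine (cP_abs ψ).trans_lt ?_
  have : (1 : ℝ) < ((1 : ℂ) + w).re := by simp [hw']
  exact_mod_cast this

lemma neg_log_sub {z : ℂ} (hz : ‖z‖ ≤ 1 / 2) : ‖-Complex.log (1 - z) - z‖ ≤ ‖z‖ ^ 2 := by
  have h1 : ‖-z‖ < 1 := by rw [norm_neg]; linarith
  have h2 := Complex.norm_log_one_add_sub_self_le h1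
  rw [norm_neg] at h2
  have h3 : -Complex.log (1 - z) - z = -(Complex.log (1 + -z) - -z) := by
    rw [← sub_eq_add_neg]; ring
  rw [h3, norm_neg]
  refine h2.trans ?_
  have h4 : (1 - ‖z‖)⁻¹ ≤ 2 := by
    rw [inv_le_comm₀ (by linarith) (by norm_num)]
    linarith
  nlinarith [sq_nonneg ‖z‖, norm_nonneg z, mul_le_mul_of_nonneg_left h4 (sq_nonneg ‖z‖)]

/-- the local variable -/
noncomputable def zp (ψ : DirichletCharacter ℂ q) (w : ℝ) (p : Nat.Primes) : ℂ :=
  ψ p * ((p : ℕ) : ℂ) ^ (-((1 : ℂ) + w))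

lemma zp_norm (ψ : DirichletCharacter ℂ q) (w : ℝ) (p : Nat.Primes) :
    ‖zp ψ w p‖ ≤ (p : ℝ) ^ (-(1 + w)) := by
  unfold zp
  rw [norm_mul, Complex.norm_natCast_cpow_of_pos p.2.pos]
  have e : (-((1 : ℂ) + w)).re = -(1 + w) := by simp
  rw [e]
  exact mul_le_of_le_one_left (by positivity) (ψ.norm_le_one _)

lemma zp_norm' (ψ : DirichletCharacter ℂ q) {w : ℝ} (hw : 0 ≤ w) (p : Nat.Primes) :
    ‖zp ψ w p‖ ≤ (p : ℝ) ^ (-1 : ℝ) := by
  have h1 : (1 : ℝ) ≤ p := by exact_mod_cast p.2.one_lt.le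
  exact (zp_norm ψ w p).trans (Real.rpow_le_rpow_of_exponent_le h1 (by linarith))

lemma zp_half (ψ : DirichletCharacter ℂ q) {w : ℝ} (hw : 0 ≤ w) (p : Nat.Primes) :
    ‖zp ψ w p‖ ≤ 1 / 2 := by
  refine (zp_norm' ψ hw p).trans ?_
  have h2 : (2 : ℝ) ≤ p := by exact_mod_cast p.2.two_le
  rw [Real.rpow_neg_one, one_div]
  exact inv_anti₀ (by norm_num) h2

/-- the second order part -/
noncomputable def rp (ψ : DirichletCharacter ℂ q) (w : ℝ) (p : Nat.Primes) : ℂ :=
  -Complex.log (1 - zp ψ w p) - zp ψ w p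

lemma rp_norm (ψ : DirichletCharacter ℂ q) {w : ℝ} (hw : 0 ≤ w) (p : Nat.Primes) :
    ‖rp ψ w p‖ ≤ (p : ℝ) ^ (-2 : ℝ) := by
  have h1 : (1 : ℝ) ≤ p := by exact_mod_cast p.2.one_lt.le
  refine (neg_log_sub (zp_half ψ hw p)).trans ?_
  calc ‖zp ψ w p‖ ^ 2 ≤ ((p : ℝ) ^ (-1 : ℝ)) ^ 2 := by
        have := zp_norm' ψ hw p
        gcongr
    _ = (p : ℝ) ^ (-2 : ℝ) := by
        rw [← Real.rpow_natCast, ← Real.rpow_mul (by linarith)]
        norm_num

lemma rp_summable (ψ : DirichletCharacter ℂ q) {w : ℝ} (hw : 0 ≤ w) : Summable (rp ψ w) :=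
  Summable.of_norm_bounded (Nat.Primes.summable_rpow.2 (by norm_num)) (rp_norm ψ hw)

lemma rp_cont (ψ : DirichletCharacter ℂ q) :
    Tendsto (fun w : ℝ => ∑' p, rp ψ w p) (𝓝[>] 0) (𝓝 (∑' p, rp ψ 0 p)) := by
  refine tendsto_tsum_of_dominated_convergence
    (bound := fun p : Nat.Primes => (p : ℝ) ^ (-2 : ℝ))
    (Nat.Primes.summable_rpow.2 (by norm_num)) ?_ ?_
  · intro p
    have hp : ((p : ℕ) : ℂ) ≠ 0 := by exact_mod_cast p.2.ne_zero
    have h1 : ContinuousAt (fun w : ℝ => zp ψ w p) 0 := by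
      unfold zp
      refine continuousAt_const.mul ?_
      have : ContinuousAt (fun s : ℂ => ((p : ℕ) : ℂ) ^ s) (-((1 : ℂ) + ((0 : ℝ) : ℂ))) :=
        continuousAt_const_cpow hp
      exact ContinuousAt.comp (f := fun w : ℝ => (-((1 : ℂ) + (w : ℂ)))) this (by fun_prop)
    have h2 : ContinuousAt (fun w : ℝ => rp ψ w p) 0 := by
      unfold rp
      refine ContinuousAt.sub (ContinuousAt.neg ?_) h1
      refine ContinuousAt.clog (continuousAt_const.sub h1) ?_
      refine Or.inl ?_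
      have h3 := zp_half ψ le_rfl p
      have h4 := Complex.abs_re_le_norm (zp ψ 0 p)
      have h5 := (abs_le.1 (h4.trans h3)).2
      rw [Complex.sub_re, Complex.one_re]
      linarith
    exact h2.tendsto.mono_left nhdsWithin_le_nhds
  · filter_upwards [self_mem_nhdsWithin] with w hw p
    exact rp_norm ψ (le_of_lt hw) p

lemma zp_tsum (ψ : DirichletCharacter ℂ q) {w : ℝ} (hw : 0 < w) :
    Summable (zp ψ w) ∧ ∑' p, zp ψ w p = LSeries (cP ψ) (1 + w) := by
  constructor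
  · exact Summable.of_norm_bounded (Nat.Primes.summable_rpow.2 (by linarith)) (zp_norm ψ w)
  · have h1 : ∑' p : Nat.Primes, zp ψ w p = ∑' n : ℕ, ({p : ℕ | p.Prime}.indicator
        (fun n : ℕ => ψ (n : ZMod q) * (n : ℂ) ^ (-((1 : ℂ) + w)))) n :=
      tsum_subtype {p : ℕ | p.Prime} (fun n : ℕ => ψ (n : ZMod q) * (n : ℂ) ^ (-((1 : ℂ) + w)))
    rw [h1]
    unfold LSeries
    refine tsum_congr fun n => ?_
    rw [LSeries.term_def]
    unfold cP
    by_cases hn : n.Prime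
    · rw [Set.indicator_of_mem (show n ∈ {p : ℕ | p.Prime} from hn), if_neg hn.ne_zero, if_pos hn,
        Complex.cpow_neg, div_eq_mul_inv]
    · rw [Set.indicator_of_notMem (show n ∉ {p : ℕ | p.Prime} from hn), if_neg hn]
      split_ifs <;> simp

/-- **the prime sum has a limit at the edge** -/
lemma edge [NeZero q] {ψ : DirichletCharacter ℂ q} (h : ψ ≠ 1) :
    ∃ C : ℂ, Tendsto (fun w : ℝ => LSeries (cP ψ) (1 + w)) (𝓝[>] 0) (𝓝 C) := by
  have hL0 : DirichletCharacter.LFunction ψ 1 ≠ 0 :=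
    DirichletCharacter.LFunction_apply_one_ne_zero h
  have hcont : ContinuousAt (DirichletCharacter.LFunction ψ) 1 :=
    (DirichletCharacter.differentiable_LFunction h 1).continuousAt
  have hpath : Tendsto (fun w : ℝ => (1 + w : ℂ)) (𝓝[>] 0) (𝓝 1) := by
    have : ContinuousAt (fun w : ℝ => (1 + w : ℂ)) 0 := by fun_prop
    have h2 := this.tendsto
    simp only [Complex.ofReal_zero, add_zero] at h2
    exact h2.mono_left nhdsWithin_le_nhds
  have h1 := hcont.tendsto.comp hpath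
  have h2 : Tendsto (fun w : ℝ => Complex.exp (-∑' p, rp ψ w p)) (𝓝[>] 0)
      (𝓝 (Complex.exp (-∑' p, rp ψ 0 p))) :=
    (Complex.continuous_exp.tendsto _).comp (rp_cont ψ).neg
  refine lim_of_exp (cP_cont ψ) (mul_ne_zero hL0 (Complex.exp_ne_zero _)) ((h1.mul h2).congr' ?_)
  filter_upwards [self_mem_nhdsWithin] with w hw
  have hw' : (0 : ℝ) < w := hw
  obtain ⟨e1, e2⟩ := zp_tsum ψ hw'
  have hre : 1 < (1 + w : ℂ).re := by simp [hw']
  have e3 := DirichletCharacter.LSeries_eulerProduct_exp_log ψ hre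
  simp only [Function.comp_apply]
  rw [DirichletCharacter.LFunction_eq_LSeries ψ hre, ← e3, ← Complex.exp_add, ← e2]
  congr 1
  have e4 : (∑' p : Nat.Primes, -Complex.log (1 - ψ p * ((p : ℕ) : ℂ) ^ (-((1 : ℂ) + w)))) =
      ∑' p, rp ψ w p + ∑' p, zp ψ w p := by
    rw [← (rp_summable ψ hw'.le).tsum_add e1]
    refine tsum_congr fun p => ?_
    unfold rp
    rw [sub_add_cancel]
    rfl
  rw [e4]
  ring

open Pool.Agent.W263.BSD (stp)
open Pool.Agent.TH941 (PS)
open Pool.Agent.TH942.MN (c1 mertens_lim)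

/-- the partial sums of `ψ(p)/p` -/
noncomputable def St (ψ : DirichletCharacter ℂ q) (u : ℝ) : ℂ :=
  ∑ n ∈ Finset.range (⌊Real.exp u⌋₊ + 1), cP ψ n / n

lemma cP_np (ψ : DirichletCharacter ℂ q) {n : ℕ} (h : ¬ n.Prime) : cP ψ n = 0 := if_neg h

lemma cP_div_norm (ψ : DirichletCharacter ℂ q) (n : ℕ) : ‖cP ψ n / n‖ ≤ 1 / n := by
  rw [norm_div, Complex.norm_natCast]
  exact div_le_div_of_nonneg_right (cP_norm ψ n) (Nat.cast_nonneg n)

lemma ls_eq (ψ : DirichletCharacter ℂ q) {w : ℝ} (hw : 0 < w) :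
    HasSum (fun n : ℕ => cP ψ n / n * (((n : ℝ) ^ (-w) : ℝ) : ℂ)) (LSeries (cP ψ) (1 + w)) := by
  have hs : LSeriesSummable (cP ψ) (1 + w) := by
    apply LSeriesSummable_of_abscissaOfAbsConv_lt_re
    refine (cP_abs ψ).trans_lt ?_
    have : (1 : ℝ) < ((1 : ℂ) + w).re := by simp [hw]
    exact_mod_cast this
  have h1 : (fun n : ℕ => cP ψ n / n * (((n : ℝ) ^ (-w) : ℝ) : ℂ)) = LSeries.term (cP ψ) (1 + w) := by
    funext n
    rw [LSeries.term_def]
    by_cases hn : n = 0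
    · simp [hn]
    · have hn0 : (0 : ℝ) < n := by exact_mod_cast Nat.pos_of_ne_zero hn
      have hnc : (n : ℂ) ≠ 0 := by exact_mod_cast hn
      rw [if_neg hn, Complex.ofReal_cpow hn0.le, Complex.cpow_add _ _ hnc, Complex.cpow_one,
        Complex.ofReal_neg, Complex.cpow_neg, Complex.ofReal_natCast]
      field_simp
  rw [h1]
  exact hs.hasSum

lemma edge_tau [NeZero q] {ψ : DirichletCharacter ℂ q} (h : ψ ≠ 1) :
    ∃ C : ℂ, Tendsto (St ψ) atTop (𝓝 C) := by
  obtain ⟨C, hC⟩ := edge h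
  have hre : Tendsto (stp fun n => (cP ψ n / n).re) atTop (𝓝 C.re) := by
    refine Pool.Agent.TH270.NG.RsLog.stp_tendsto (B := 1) ⟨one_pos, fun n =>
      (Complex.abs_re_le_norm _).trans (cP_div_norm ψ n), fun n hn => by simp [cP_np ψ hn]⟩ ?_
    refine ((Complex.continuous_re.tendsto C).comp hC).congr' ?_
    filter_upwards [self_mem_nhdsWithin] with w hw
    have h1 := Complex.hasSum_re (ls_eq ψ hw)
    simp only [Function.comp_apply]
    rw [← h1.tsum_eq]
    refine tsum_congr fun n => ?_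
    rw [Complex.re_mul_ofReal]
  have him : Tendsto (stp fun n => (cP ψ n / n).im) atTop (𝓝 C.im) := by
    refine Pool.Agent.TH270.NG.RsLog.stp_tendsto (B := 1) ⟨one_pos, fun n =>
      (Complex.abs_im_le_norm _).trans (cP_div_norm ψ n), fun n hn => by simp [cP_np ψ hn]⟩ ?_
    refine ((Complex.continuous_im.tendsto C).comp hC).congr' ?_
    filter_upwards [self_mem_nhdsWithin] with w hw
    have h1 := Complex.hasSum_im (ls_eq ψ hw)
    simp only [Function.comp_apply]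
    rw [← h1.tsum_eq]
    refine tsum_congr fun n => ?_
    rw [Complex.im_mul_ofReal]
  refine ⟨C, ?_⟩
  have h2 : Tendsto (fun u => (((stp fun n => (cP ψ n / n).re) u : ℝ) : ℂ) +
      (((stp fun n => (cP ψ n / n).im) u : ℝ) : ℂ) * Complex.I) atTop (𝓝 (C.re + C.im * Complex.I)) :=
    ((Complex.continuous_ofReal.tendsto _).comp hre).add
      (((Complex.continuous_ofReal.tendsto _).comp him).mul_const _)
  rw [Complex.re_add_im] at h2
  refine h2.congr fun u => ?_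
  unfold St stp
  apply Complex.ext
  · simp
  · simp

/-- the trivial character: Mertens -/
lemma triv [NeZero q] : ∃ C : ℂ, Tendsto
    (fun u : ℝ => St (1 : DirichletCharacter ℂ q) u - ((Real.log u : ℝ) : ℂ)) atTop (𝓝 C) := by
  obtain ⟨M, hM⟩ := mertens_lim
  set d : ℕ → ℂ := fun n => ((c1 n : ℝ) : ℂ) - cP (1 : DirichletCharacter ℂ q) n / n with hd
  have h1 : ∀ n ∉ Finset.range (q + 1), d n = 0 := by
    intro n hn
    rw [Finset.mem_range, not_lt] at hn
    simp only [hd]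
    unfold c1 cP
    by_cases hp : n.Prime
    · rw [if_pos hp, if_pos hp]
      have hc : IsUnit (n : ZMod q) := by
        rw [ZMod.isUnit_iff_coprime]
        refine (Nat.Prime.coprime_iff_not_dvd hp).2 fun hdv => ?_
        have := Nat.le_of_dvd (Nat.pos_of_ne_zero (NeZero.ne q)) hdv
        omega
      rw [MulChar.one_apply hc]
      push_cast
      ring
    · rw [if_neg hp, if_neg hp]
      simp
  have h2 : HasSum d (∑ n ∈ Finset.range (q + 1), d n) := hasSum_sum_of_ne_finset_zero h1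
  have h3 : Tendsto (fun u : ℝ => ∑ n ∈ Finset.range (⌊Real.exp u⌋₊ + 1), d n) atTop
      (𝓝 (∑ n ∈ Finset.range (q + 1), d n)) :=
    h2.tendsto_sum_nat.comp ((tendsto_add_atTop_nat 1).comp
      (tendsto_nat_floor_atTop.comp Real.tendsto_exp_atTop))
  have h4 := ((Complex.continuous_ofReal.tendsto _).comp hM).sub h3
  refine ⟨_, h4.congr fun u => ?_⟩
  unfold St stp
  simp only [hd, Function.comp_apply, Finset.sum_sub_distrib]
  push_cast
  ring

/-- both cases -/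
lemma st_lim [NeZero q] (ψ : DirichletCharacter ℂ q) : ∃ C : ℂ, Tendsto
    (fun u : ℝ => St ψ u - (((if ψ = 1 then 1 else 0 : ℝ) * Real.log u : ℝ) : ℂ)) atTop (𝓝 C) := by
  by_cases h : ψ = 1
  · subst h
    obtain ⟨C, hC⟩ := triv (q := q)
    refine ⟨C, ?_⟩
    simpa using hC
  · obtain ⟨C, hC⟩ := edge_tau h
    refine ⟨C, ?_⟩
    simpa [h] using hC

open Pool.Agent.TH270.MC

/-- the local roots form a system -/
lemma csal (χ : DirichletCharacter ℂ q) : CS nP (al χ) := by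
  have E := Pool.Agent.TH270.MS.q_sys Nat.Prime (fun _ h => h) (fun _ (_ : Fin 0) => (0 : ℂ))
    (fun _ i => i.elim0) (fun _ => by simp)
  exact ⟨E.cnt, E.two_le, E.sum, E.log_sum, fun v _ => χ.norm_le_one _⟩

/-- the normalized value -/
noncomputable def zn (χ : DirichletCharacter ℂ q) (n : ℕ) : ℂ :=
  χ (n : ZMod q) / ((√(n : ℝ) : ℝ) : ℂ)

/-- the third order part -/
noncomputable def rn (χ : DirichletCharacter ℂ q) (n : ℕ) : ℂ :=
  if n.Prime then Complex.log (1 - zn χ n) + zn χ n + zn χ n ^ 2 / 2 else 0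

lemma zn_norm (χ : DirichletCharacter ℂ q) (n : ℕ) : ‖zn χ n‖ ≤ 1 / √(n : ℝ) := by
  unfold zn
  rw [norm_div, Complex.norm_real, Real.norm_eq_abs, abs_of_nonneg (Real.sqrt_nonneg _)]
  exact div_le_div_of_nonneg_right (χ.norm_le_one _) (Real.sqrt_nonneg _)

lemma rn_summable (χ : DirichletCharacter ℂ q) : Summable (rn χ) := by
  have hs : Summable fun n : ℕ => 4 * (1 / (n : ℝ) ^ (3 / 2 : ℝ)) :=
    (Real.summable_one_div_nat_rpow.2 (by norm_num)).mul_left 4
  refine Summable.of_norm_bounded hs fun n => ?_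
  unfold rn
  split_ifs with hn
  · have h2 : (2 : ℝ) ≤ n := by exact_mod_cast hn.two_le
    have hn0 : (0 : ℝ) < n := by linarith
    have hsq : (7 / 5 : ℝ) ≤ √(n : ℝ) := by
      rw [Real.le_sqrt' (by norm_num)]
      linarith
    have hz := zn_norm χ n
    have hz' : ‖zn χ n‖ ≤ 5 / 7 := by
      refine hz.trans ?_
      rw [div_le_iff₀ (by linarith)]
      linarith
    have h3 : ‖-zn χ n‖ < 1 := by rw [norm_neg]; linarith
    have h4 := Complex.norm_log_sub_logTaylor_le 2 h3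
    rw [norm_neg] at h4
    have e1 : Complex.logTaylor (2 + 1) (-zn χ n) = -zn χ n - zn χ n ^ 2 / 2 := by
      rw [Complex.logTaylor_succ, Complex.logTaylor_succ, Complex.logTaylor_succ,
        Complex.logTaylor_zero]
      simp
      ring
    have e2 : Complex.log (1 - zn χ n) + zn χ n + zn χ n ^ 2 / 2 =
        Complex.log (1 + -zn χ n) - Complex.logTaylor (2 + 1) (-zn χ n) := by
      rw [e1, ← sub_eq_add_neg]
      ring
    rw [e2]
    refine h4.trans ?_
    have h5 : (1 - ‖zn χ n‖)⁻¹ ≤ 4 := by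
      rw [inv_le_comm₀ (by linarith) (by norm_num)]
      linarith
    have h6 : ‖zn χ n‖ ^ (2 + 1) ≤ 1 / (n : ℝ) ^ (3 / 2 : ℝ) := by
      refine (pow_le_pow_left₀ (norm_nonneg _) hz _).trans (le_of_eq ?_)
      rw [div_pow, one_pow, Real.sqrt_eq_rpow, ← Real.rpow_natCast, ← Real.rpow_mul hn0.le]
      norm_num
    have h7 : (0 : ℝ) ≤ ‖zn χ n‖ ^ (2 + 1) := by positivity
    have h8 : (0 : ℝ) < (1 - ‖zn χ n‖)⁻¹ := inv_pos.2 (by linarith)
    have h9 : ‖zn χ n‖ ^ (2 + 1) * (1 - ‖zn χ n‖)⁻¹ ≤ 4 * (1 / (n : ℝ) ^ (3 / 2 : ℝ)) := by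
      rw [mul_comm]
      exact mul_le_mul h5 h6 h7 (by norm_num)
    refine le_trans ?_ h9
    refine div_le_self (by positivity) ?_
    norm_num
  · rw [norm_zero]
    positivity

lemma range_Icc (f : ℕ → ℂ) (n : ℕ) :
    ∑ k ∈ (Finset.Icc 1 n).filter (fun k => k.Prime), f k =
      ∑ k ∈ Finset.range (n + 1), if k.Prime then f k else 0 := by
  rw [← Finset.sum_filter]
  refine Finset.sum_congr ?_ fun _ _ => rfl
  ext k
  simp only [Finset.mem_filter, Finset.mem_Icc, Finset.mem_range]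
  constructor
  · rintro ⟨⟨h1, h2⟩, h3⟩
    exact ⟨by omega, h3⟩
  · rintro ⟨h1, h2⟩
    exact ⟨⟨h2.pos, by omega⟩, h2⟩

/-- the sum of the local logarithms -/
lemma cvs_al (χ : DirichletCharacter ℂ q) (n : ℕ) :
    ∑ᶠ (v : Nat.Primes) (_ : (nP v : ℝ) ≤ (n : ℝ)), cvC nP (al χ) v =
      ∑ k ∈ Finset.range (n + 1), if k.Prime then Complex.log (1 - zn χ k) else 0 := by
  have h1 := sumPr (fun k => Complex.log (1 - zn χ k)) (fun k => k ≤ n) n (fun k h => h)
  have h2 : ∑ᶠ (v : Nat.Primes) (_ : (nP v : ℝ) ≤ (n : ℝ)), cvC nP (al χ) v =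
      ∑ᶠ (v : Nat.Primes) (_ : (v : ℕ) ≤ n), Complex.log (1 - zn χ v) := by
    refine finsum_congr fun v => ?_
    have e : cvC nP (al χ) v = Complex.log (1 - zn χ v) := by
      unfold cvC
      rw [Fin.sum_univ_one]
      rfl
    rw [e]
    have : ((nP v : ℝ) ≤ (n : ℝ)) = ((v : ℕ) ≤ n) := propext Nat.cast_le
    rw [this]
  rw [h2, h1, ← range_Icc]
  refine Finset.sum_congr ?_ fun _ _ => rfl
  ext k
  simp only [Finset.mem_filter, Finset.mem_Icc]
  tauto

lemma zn_sq (χ : DirichletCharacter ℂ q) {k : ℕ} (hk : k.Prime) :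
    zn χ k ^ 2 = cP (χ ^ 2) k / k := by
  unfold zn cP
  have h0 : (0 : ℝ) ≤ k := Nat.cast_nonneg k
  rw [if_pos hk, div_pow, ← Complex.ofReal_pow, Real.sq_sqrt h0, MulChar.pow_apply' _ two_ne_zero,
    Complex.ofReal_natCast]

/-- the correction -/
lemma corr_al (χ : DirichletCharacter ℂ q) (n : ℕ) :
    ∑ᶠ (v : Nat.Primes) (_ : √(n : ℝ) < nP v ∧ (nP v : ℝ) ≤ (n : ℝ)), cC nP (al χ) (v, 1) =
      ∑ k ∈ Finset.range (n + 1), if k.Prime ∧ n < k ^ 2 then zn χ k ^ 2 / 2 else 0 := by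
  have h1 := sumPr (fun k => zn χ k ^ 2 / 2) (fun k => n < k ^ 2 ∧ k ≤ n) n (fun k h => h.2)
  have h2 : ∑ᶠ (v : Nat.Primes) (_ : √(n : ℝ) < nP v ∧ (nP v : ℝ) ≤ (n : ℝ)),
      cC nP (al χ) (v, 1) = ∑ᶠ (v : Nat.Primes) (_ : n < (v : ℕ) ^ 2 ∧ (v : ℕ) ≤ n),
        zn χ v ^ 2 / 2 := by
    refine finsum_congr fun v => ?_
    have e : cC nP (al χ) (v, 1) = zn χ v ^ 2 / 2 := by
      unfold cC
      rw [Fin.sum_univ_one]
      have e1 : Pool.Agent.TH942.ES.zv nP (al χ) v 0 = zn χ v := rfl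
      simp only [e1]
      norm_num
    rw [e]
    have : (√(n : ℝ) < nP v ∧ (nP v : ℝ) ≤ (n : ℝ)) = (n < (v : ℕ) ^ 2 ∧ (v : ℕ) ≤ n) := by
      apply propext
      refine and_congr ?_ Nat.cast_le
      rw [Real.sqrt_lt' (by exact_mod_cast v.2.pos)]
      have e : ((nP v : ℕ) : ℝ) ^ 2 = (((v : ℕ) ^ 2 : ℕ) : ℝ) := by
        push_cast
        rfl
      rw [e, Nat.cast_lt]
    rw [this]
  rw [h2, h1, ← Finset.sum_filter]
  refine Finset.sum_congr ?_ fun _ _ => rfl
  ext k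
  simp only [Finset.mem_filter, Finset.mem_Icc, Finset.mem_range]
  constructor
  · rintro ⟨⟨h1, h2⟩, h3, h4, h5⟩
    exact ⟨by omega, h3, h4⟩
  · rintro ⟨h1, h2, h3⟩
    exact ⟨⟨h2.pos, by omega⟩, h2, h3, by omega⟩

/-- the small primes -/
lemma small (χ : DirichletCharacter ℂ q) {n : ℕ} (hn : 1 ≤ n) :
    St (χ ^ 2) (Real.log n / 2) / 2 =
      ∑ k ∈ Finset.range (n + 1), if k.Prime ∧ ¬ n < k ^ 2 then zn χ k ^ 2 / 2 else 0 := by
  have hn0 : (0 : ℝ) < n := by exact_mod_cast hn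
  have e1 : ⌊Real.exp (Real.log n / 2)⌋₊ = Nat.sqrt n := by
    have : Real.exp (Real.log n / 2) = √(n : ℝ) := by
      rw [Real.sqrt_eq_rpow, Real.rpow_def_of_pos hn0]
      congr 1
      ring
    rw [this, Real.nat_floor_real_sqrt_eq_nat_sqrt]
  unfold St
  rw [e1, Finset.sum_div]
  have h1 : ∀ k : ℕ, cP (χ ^ 2) k / k / 2 = if k.Prime then zn χ k ^ 2 / 2 else 0 := by
    intro k
    by_cases hk : k.Prime
    · rw [if_pos hk, zn_sq χ hk]
    · rw [if_neg hk, cP_np _ hk]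
      simp
  rw [Finset.sum_congr rfl fun k _ => h1 k, ← Finset.sum_filter, ← Finset.sum_filter]
  refine Finset.sum_congr ?_ fun _ _ => rfl
  ext k
  simp only [Finset.mem_filter, Finset.mem_range]
  constructor
  · rintro ⟨h2, h3⟩
    have h4 : k ≤ Nat.sqrt n := by omega
    have h5 := Nat.le_sqrt'.1 h4
    have h6 := Nat.sqrt_le_self n
    exact ⟨by omega, h3, by omega⟩
  · rintro ⟨h2, h3, h4⟩
    have h5 : k ≤ Nat.sqrt n := Nat.le_sqrt'.2 (by omega)
    exact ⟨by omega, h3⟩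

lemma u_eq (χ : DirichletCharacter ℂ q) (n : ℕ) :
    U χ n = ∑ k ∈ Finset.range (n + 1), if k.Prime then zn χ k else 0 := by
  unfold U
  rw [Finset.sum_filter]
  rfl

lemma ident (χ : DirichletCharacter ℂ q) {n : ℕ} (hn : 1 ≤ n) : Pc nP (al χ) (n : ℝ) - U χ n =
    ((∑ᶠ (v : Nat.Primes) (_ : (nP v : ℝ) ≤ (n : ℝ)), cvC nP (al χ) v) + Pc nP (al χ) (n : ℝ) +
      ∑ᶠ (v : Nat.Primes) (_ : √(n : ℝ) < nP v ∧ (nP v : ℝ) ≤ (n : ℝ)), cC nP (al χ) (v, 1)) -
      ∑ k ∈ Finset.range (n + 1), rn χ k + St (χ ^ 2) (Real.log n / 2) / 2 := by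
  rw [cvs_al, corr_al, small χ hn, u_eq]
  have key : (∑ k ∈ Finset.range (n + 1), if k.Prime then Complex.log (1 - zn χ k) else 0) +
      (∑ k ∈ Finset.range (n + 1), if k.Prime ∧ n < k ^ 2 then zn χ k ^ 2 / 2 else 0) +
      (∑ k ∈ Finset.range (n + 1), if k.Prime ∧ ¬ n < k ^ 2 then zn χ k ^ 2 / 2 else 0) +
      (∑ k ∈ Finset.range (n + 1), if k.Prime then zn χ k else 0) =
      ∑ k ∈ Finset.range (n + 1), rn χ k := by
    rw [← Finset.sum_add_distrib, ← Finset.sum_add_distrib, ← Finset.sum_add_distrib]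
    refine Finset.sum_congr rfl fun k _ => ?_
    unfold rn
    by_cases h1 : k.Prime
    · by_cases h2 : n < k ^ 2
      · simp only [h1, h2, and_self, if_true, not_true_eq_false, and_false, if_false]
        ring
      · simp only [h1, h2, and_self, if_true, not_false_eq_true, and_false, if_false]
        ring
    · simp [h1]
  rw [← key]
  ring

end CL

theorem pc_close {q : ℕ} [NeZero q] (χ : DirichletCharacter ℂ q) :
    ∃ L : ℂ, Tendsto (fun n : ℕ => Pc nP (al χ) (n : ℝ) - U χ n -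
      ((if χ ^ 2 = 1 then (1 / 2 : ℝ) else 0) * Real.log (Real.log n) : ℝ)) atTop (𝓝 L) := by
  obtain ⟨C, hC⟩ := Pool.Agent.TH270.MC.sharp_tailC (CL.csal χ)
  obtain ⟨L, hL⟩ := CL.st_lim (χ ^ 2)
  set δ : ℝ := if χ ^ 2 = 1 then 1 else 0 with hδ
  set T : ℕ → ℂ := fun n =>
    ((∑ᶠ (v : Nat.Primes) (_ : (nP v : ℝ) ≤ (n : ℝ)), Pool.Agent.TH270.MC.cvC nP (al χ) v) +
      Pc nP (al χ) (n : ℝ) +
      ∑ᶠ (v : Nat.Primes) (_ : √(n : ℝ) < nP v ∧ (nP v : ℝ) ≤ (n : ℝ)),
        Pool.Agent.TH270.MC.cC nP (al χ) (v, 1)) with hT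
  have h1 : Tendsto T atTop (𝓝 0) := by
    have h2 : Tendsto (fun n : ℕ => C * (n : ℝ) ^ (-(1 / 12 : ℝ))) atTop (𝓝 0) := by
      have := ((tendsto_rpow_neg_atTop (y := (1 / 12 : ℝ)) (by norm_num)).comp
        tendsto_natCast_atTop_atTop).const_mul C
      rwa [mul_zero] at this
    refine squeeze_zero_norm' ?_ h2
    filter_upwards [eventually_ge_atTop 1] with n hn
    exact hC n (by exact_mod_cast hn)
  have h2 : Tendsto (fun n : ℕ => ∑ k ∈ Finset.range (n + 1), CL.rn χ k) atTop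
      (𝓝 (∑' k, CL.rn χ k)) :=
    (CL.rn_summable χ).hasSum.tendsto_sum_nat.comp (tendsto_add_atTop_nat 1)
  have hlog : Tendsto (fun n : ℕ => Real.log (n : ℝ) / 2) atTop atTop :=
    (Real.tendsto_log_atTop.comp tendsto_natCast_atTop_atTop).atTop_div_const (by norm_num)
  have h3 := (hL.comp hlog).div_const 2
  refine ⟨0 - (∑' k, CL.rn χ k) + L / 2 - ((δ / 2 * Real.log 2 : ℝ) : ℂ), ?_⟩
  refine (((h1.sub h2).add h3).sub_const ((δ / 2 * Real.log 2 : ℝ) : ℂ)).congr' ?_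
  filter_upwards [eventually_ge_atTop 2] with n hn
  rw [CL.ident χ (by omega : 1 ≤ n)]
  have hln : 0 < Real.log (n : ℝ) := Real.log_pos (by exact_mod_cast hn)
  have e1 : Real.log (Real.log n / 2) = Real.log (Real.log n) - Real.log 2 :=
    Real.log_div hln.ne' (by norm_num)
  have e2 : (if χ ^ 2 = 1 then (1 / 2 : ℝ) else 0) = δ / 2 := by
    rw [hδ]
    split_ifs <;> norm_num
  simp only [hT, Function.comp_apply]
  rw [e1, e2]
  push_cast
  ring

end Pool.Agent.TH270.CB
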