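import Pool.Agent.TH270.MC.Law
import Pool.Agent.TH270.MC.Prim

/-!
# Chebyshev's bias for weighted prime sums: definitions
-/

set_option autoImplicit false

open Pool.Agent.TH270.MC (nP)

namespace Pool.Agent.TH270.CB

variable {q : ℕ}

/-- the local root of `L(s, χ)` at a prime -/
noncomputable def al (χ : DirichletCharacter ℂ q) (v : Nat.Primes) (_ : Fin 1) : ℂ :=
  χ (((v : ℕ) : ZMod q))

/-- the sum of `χ(p)/√p` over the primes `p ≤ n` -/
noncomputable def U (χ : DirichletCharacter ℂ q) (n : ℕ) : ℂ :=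
  ∑ p ∈ (Finset.range (n + 1)).filter Nat.Prime, χ (p : ZMod q) / ((√(p : ℝ) : ℝ) : ℂ)

/-- the sum of `1/√p` over the primes `p ≤ n`, `p ≡ a` -/
noncomputable def race (a : ZMod q) (n : ℕ) : ℝ :=
  ∑ p ∈ (Finset.range (n + 1)).filter (fun p : ℕ => p.Prime ∧ (p : ZMod q) = a), 1 / √(p : ℝ)

/-- the number of square roots of a unit -/
noncomputable def sqr (a : (ZMod q)ˣ) : ℕ := Nat.card {y : (ZMod q)ˣ // y ^ 2 = a}

end Pool.Agent.TH270.CB
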