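import Pool.Agent.TH270.CB.Defs

/-!
# Sums of `ψ(p)/p`: definitions
-/

set_option autoImplicit false

namespace Pool.Agent.TH270.CB

variable {q : ℕ}

/-- the local root of `L(1/2 + s, ψ)` at a prime -/
noncomputable def al2 (ψ : DirichletCharacter ℂ q) (v : Nat.Primes) (_ : Fin 1) : ℂ :=
  ψ (((v : ℕ) : ZMod q)) / ((√((v : ℕ) : ℝ) : ℝ) : ℂ)

/-- the sum of `ψ(p)/p` over the primes `p ≤ n` -/
noncomputable def Q (ψ : DirichletCharacter ℂ q) (n : ℕ) : ℂ :=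
  ∑ p ∈ (Finset.range (n + 1)).filter Nat.Prime, ψ (p : ZMod q) / (p : ℂ)

end Pool.Agent.TH270.CB
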