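import Pool.Agent.TH270.CB.Defs
import Pool.Agent.H370R2.DirGood

/-!
# Dirichlet L-functions as systems of complex local roots (helper952)
-/

set_option autoImplicit false
open MeasureTheory Filter Topology Set
open Pool.Agent.TH270.MC (McC Pc nP)
open scoped Classical
namespace Pool.Agent.TH270.CB

namespace MD

open Pool.Agent.TH942.ES
open Pool.Agent.TH270.MC (CS nP_pos)
open Pool.Agent.TH270.MS (q_sys)

theorem cs {q : ℕ} (χ : DirichletCharacter ℂ q) : CS nP (al χ) := by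
  have E := q_sys Nat.Prime (fun _ h => h) (fun _ (_ : Fin 0) => (0 : ℂ)) (fun _ i => i.elim0)
    (fun _ => by simp)
  exact ⟨E.cnt, E.two_le, E.sum, E.log_sum, fun v _ => DirichletCharacter.norm_le_one χ _⟩

theorem sqrt_eq (v : Nat.Primes) :
    ((√((nP v : ℕ) : ℝ) : ℝ) : ℂ) = Complex.exp (Real.log (nP v) / 2) := by
  have h0 : (0 : ℝ) < (nP v : ℕ) := nP_pos v
  have h1 : √((nP v : ℕ) : ℝ) = Real.exp (Real.log (nP v) / 2) := by
    rw [Real.sqrt_eq_rpow, Real.rpow_def_of_pos h0]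
    congr 1
    ring
  rw [h1, Complex.ofReal_exp]
  congr 1
  push_cast
  rfl

theorem term {q : ℕ} (χ : DirichletCharacter ℂ q) (v : Nat.Primes) (s : ℂ) (i : Fin 1) :
    zv nP (al χ) v i * xv nP v s = χ ((v : ℕ) : ZMod q) * ((v : ℕ) : ℂ) ^ (-(1 / 2 + s)) := by
  have h3 : ((v : ℕ) : ℂ) ≠ 0 := by exact_mod_cast (nP_pos v).ne'
  unfold zv xv
  rw [sqrt_eq, div_eq_mul_inv, ← Complex.exp_neg, mul_assoc, ← Complex.exp_add,
    Complex.cpow_def_of_ne_zero h3]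
  have h4 : Complex.log ((v : ℕ) : ℂ) = (Real.log (nP v) : ℂ) := by
    have h6 := Complex.ofReal_log (nP_pos v).le
    rw [Complex.ofReal_natCast] at h6
    exact h6.symm
  rw [h4]
  have h5 : -((Real.log (nP v) : ℂ) / 2) + -(s * (Real.log (nP v) : ℂ)) =
      (Real.log (nP v) : ℂ) * (-(1 / 2 + s)) := by ring
  rw [h5]
  rfl

theorem LE_eq {q : ℕ} [NeZero q] (χ : DirichletCharacter ℂ q) {s : ℂ} (hs : 1 / 2 < s.re) :
    DirichletCharacter.LFunction χ (1 / 2 + s) = Pool.Agent.TH942.ES.LE nP (al χ) s := by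
  have hre : 1 < (1 / 2 + s : ℂ).re := by
    have : (1 / 2 + s : ℂ).re = 1 / 2 + s.re := by simp
    rw [this]
    linarith
  rw [DirichletCharacter.LFunction_eq_LSeries χ hre,
    ← DirichletCharacter.LSeries_eulerProduct_tprod χ hre]
  unfold Pool.Agent.TH942.ES.LE
  refine tprod_congr fun v => ?_
  rw [Fin.prod_univ_one, term]

theorem growth {q : ℕ} [NeZero q] {χ : DirichletCharacter ℂ q} (hχ : χ ≠ 1) {s : ℂ}
    (hs : -(1 / 4) < s.re) :
    ‖DirichletCharacter.LFunction χ (1 / 2 + s)‖ ≤ 4 * (q + 1) * (1 + ‖s‖) ^ 1 := by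
  have hre : (1 / 2 + s : ℂ).re = 1 / 2 + s.re := by simp
  have h0 : 1 / 4 < (1 / 2 + s : ℂ).re := by rw [hre]; linarith
  have hs' : 0 < (1 / 2 + s : ℂ).re := by linarith
  have hA : ∀ u : ℝ, ‖∑ k ∈ Finset.Icc 1 ⌊u⌋₊, χ (k : ZMod q)‖ ≤ (q + 1 : ℝ) :=
    fun u => H370.DL.norm_sum_Icc_le hχ _
  rw [H370.DL.L_integral hχ hs', norm_mul, pow_one]
  have h4 := H370.DL.J_bound hA hs'
  have h5 : (q + 1 : ℝ) / (1 / 2 + s : ℂ).re ≤ 4 * (q + 1) := by
    rw [div_le_iff₀ hs']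
    have : (0 : ℝ) ≤ q := Nat.cast_nonneg q
    nlinarith
  have h6 : ‖(1 / 2 + s : ℂ)‖ ≤ 1 + ‖s‖ := by
    refine (norm_add_le _ _).trans ?_
    have : ‖(1 / 2 : ℂ)‖ ≤ 1 := by norm_num
    linarith
  calc _ ≤ (1 + ‖s‖) * (4 * (q + 1)) :=
        mul_le_mul h6 (h4.trans h5) (norm_nonneg _) (by positivity)
    _ = _ := by ring

end MD

theorem mcc {q : ℕ} [NeZero q] {χ : DirichletCharacter ℂ q} (hχ : χ ≠ 1) :
    ∃ C : ℝ, McC nP (al χ) (fun s => DirichletCharacter.LFunction χ (1 / 2 + s)) 1 (1 / 4) C := by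
  refine ⟨4 * (q + 1), MD.cs χ, by norm_num, ?_, ?_, ?_⟩
  · intro s _
    have h1 := DirichletCharacter.differentiable_LFunction hχ
    exact (h1 (1 / 2 + s)).comp s ((differentiableAt_const _).add differentiableAt_id)
  · intro s hs
    exact MD.growth hχ hs
  · intro s hs
    exact MD.LE_eq χ hs

end Pool.Agent.TH270.CB
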