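import Pool.Agent.TH270.CB.Defs2
import Pool.Agent.TH270.CB.Mcc

/-!
# `L(1 + s, ψ)` as a system of complex local roots
-/

set_option autoImplicit false
open MeasureTheory Filter Topology Set
open Pool.Agent.TH270.MC (McC Pc nP)
open scoped Classical
namespace Pool.Agent.TH270.CB

namespace MH

open Pool.Agent.TH942.ES
open Pool.Agent.TH270.MC (CS nP_pos)
open Pool.Agent.TH270.MS (q_sys)

theorem cs {q : ℕ} (ψ : DirichletCharacter ℂ q) : CS nP (al2 ψ) := by
  have E := q_sys Nat.Prime (fun _ h => h) (fun _ (_ : Fin 0) => (0 : ℂ)) (fun _ i => i.elim0)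
    (fun _ => by simp)
  refine ⟨E.cnt, E.two_le, E.sum, E.log_sum, fun v _ => ?_⟩
  have h1 : (1 : ℝ) ≤ √((v : ℕ) : ℝ) := by
    rw [Real.one_le_sqrt]
    exact_mod_cast v.2.one_lt.le
  unfold al2
  rw [norm_div, Complex.norm_real, Real.norm_eq_abs, abs_of_pos (by linarith), div_le_one (by linarith)]
  exact (DirichletCharacter.norm_le_one ψ _).trans h1

theorem term {q : ℕ} (ψ : DirichletCharacter ℂ q) (v : Nat.Primes) (s : ℂ) (i : Fin 1) :
    zv nP (al2 ψ) v i * xv nP v s = ψ ((v : ℕ) : ZMod q) * ((v : ℕ) : ℂ) ^ (-(1 + s)) := by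
  have h1 := MD.term ψ v (1 / 2 + s) i
  have h2 : zv nP (al2 ψ) v i * xv nP v s = zv nP (al ψ) v i * xv nP v (1 / 2 + s) := by
    unfold zv xv al2 al
    have h3 : Complex.exp (-((1 / 2 + s) * (Real.log (nP v) : ℂ))) =
        (1 / ((√((v : ℕ) : ℝ) : ℝ) : ℂ)) * Complex.exp (-(s * (Real.log (nP v) : ℂ))) := by
      have h4 := MD.sqrt_eq v
      have h5 : ((√((v : ℕ) : ℝ) : ℝ) : ℂ) = Complex.exp (Real.log (nP v) / 2) := h4
      have h6 : (1 / Complex.exp ((Real.log (nP v) : ℂ) / 2)) = Complex.exp (-((Real.log (nP v) : ℂ) / 2)) := by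
        rw [Complex.exp_neg, one_div]
      rw [h5, h6, ← Complex.exp_add]
      congr 1
      ring
    rw [h3]
    ring
  rw [h2, h1]
  congr 3
  ring

theorem LE_eq {q : ℕ} [NeZero q] (ψ : DirichletCharacter ℂ q) {s : ℂ} (hs : 1 / 2 < s.re) :
    DirichletCharacter.LFunction ψ (1 + s) = Pool.Agent.TH942.ES.LE nP (al2 ψ) s := by
  have hre : 1 < (1 + s : ℂ).re := by
    have : (1 + s : ℂ).re = 1 + s.re := by simp
    rw [this]
    linarith
  rw [DirichletCharacter.LFunction_eq_LSeries ψ hre,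
    ← DirichletCharacter.LSeries_eulerProduct_tprod ψ hre]
  unfold Pool.Agent.TH942.ES.LE
  refine tprod_congr fun v => ?_
  rw [Fin.prod_univ_one, term]

theorem growth {q : ℕ} [NeZero q] {ψ : DirichletCharacter ℂ q} (hψ : ψ ≠ 1) {s : ℂ}
    (hs : -(1 / 4) < s.re) :
    ‖DirichletCharacter.LFunction ψ (1 + s)‖ ≤ 8 * (q + 1) * (1 + ‖s‖) ^ 1 := by
  have h1 := MD.growth hψ (s := 1 / 2 + s) (by
    rw [Complex.add_re]
    norm_num
    linarith)
  have h2 : (1 / 2 + (1 / 2 + s) : ℂ) = 1 + s := by ring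
  rw [h2] at h1
  refine h1.trans ?_
  have h3 : ‖(1 / 2 + s : ℂ)‖ ≤ 1 + ‖s‖ := by
    refine (norm_add_le _ _).trans ?_
    have : ‖(1 / 2 : ℂ)‖ ≤ 1 := by norm_num
    linarith
  have h4 : (0 : ℝ) ≤ q := Nat.cast_nonneg q
  have h5 : 0 ≤ ‖s‖ := norm_nonneg s
  rw [pow_one, pow_one]
  nlinarith [mul_nonneg h4 h5]

end MH

theorem mcc2 {q : ℕ} [NeZero q] {ψ : DirichletCharacter ℂ q} (hψ : ψ ≠ 1) :
    ∃ C : ℝ, McC nP (al2 ψ) (fun s => DirichletCharacter.LFunction ψ (1 + s)) 1 (1 / 4) C := by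
  refine ⟨8 * (q + 1), MH.cs ψ, by norm_num, ?_, ?_, ?_⟩
  · intro s _
    have h1 := DirichletCharacter.differentiable_LFunction hψ
    exact (h1 (1 + s)).comp s ((differentiableAt_const _).add differentiableAt_id)
  · intro s hs
    exact MH.growth hψ hs
  · intro s hs
    exact MH.LE_eq ψ hs

end Pool.Agent.TH270.CB
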