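import Pool.Agent.TH270.CB.Defs2
import Pool.Agent.Helper923.HMertens

set_option autoImplicit false

/-!
# Mertens' theorem with an error term for the trivial character

Task CB-7 (helper460).
-/

open MeasureTheory Filter Topology Set
open scoped Classical

namespace Pool.Agent.TH270.CB

namespace ON

/-- the sum of `1/p` over the primes `p ≤ n` -/
noncomputable def S (n : ℕ) : ℝ :=
  ∑ p ∈ (Finset.range (n + 1)).filter Nat.Prime, (1 : ℝ) / p

lemma S_diff (a b : ℕ) (hab : a ≤ b) :
    S b - S a = ∑ p ∈ (Finset.Ioc a b).filter Nat.Prime, (1 : ℝ) / p := by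
  unfold S
  rw [sub_eq_iff_eq_add, ← Finset.sum_union]
  · congr 1
    ext x
    simp only [Finset.mem_filter, Finset.mem_union, Finset.mem_range, Finset.mem_Ioc]
    constructor
    · rintro ⟨h1, h2⟩
      by_cases h : x < a + 1
      · exact Or.inr ⟨h, h2⟩
      · exact Or.inl ⟨⟨by omega, by omega⟩, h2⟩
    · rintro (⟨⟨h1, h3⟩, h2⟩ | ⟨h1, h2⟩)
      · exact ⟨by omega, h2⟩
      · exact ⟨by omega, h2⟩
  · rw [Finset.disjoint_left]
    intro x h1 h2
    simp only [Finset.mem_filter, Finset.mem_range, Finset.mem_Ioc] at h1 h2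
    omega

lemma mertens : ∃ M C : ℝ, 0 ≤ C ∧ ∀ n : ℕ, 2 ≤ n →
    |S n - Real.log (Real.log n) - M| ≤ C / Real.log n := by
  obtain ⟨C, hC0, hC⟩ := Pool.Agent.Helper923.HMertens.mertens_ratio
  have h1 : ∀ a b : ℕ, 2 ≤ a → a ≤ b →
      |(S b - Real.log (Real.log b)) - (S a - Real.log (Real.log a))| ≤ C / Real.log a := by
    intro a b ha hab
    have h2 := hC a b ha hab
    have hla : 0 < Real.log a := Real.log_pos (by exact_mod_cast (by omega : 1 < a))
    have hlb : 0 < Real.log b := Real.log_pos (by exact_mod_cast (by omega : 1 < b))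
    rw [← S_diff a b hab, Real.log_div hlb.ne' hla.ne'] at h2
    refine le_trans (le_of_eq ?_) h2
    congr 1
    ring
  set f : ℕ → ℝ := fun n => S (n + 2) - Real.log (Real.log ((n + 2 : ℕ) : ℝ)) with hf
  have hlog : Tendsto (fun n : ℕ => C / Real.log ((n + 2 : ℕ) : ℝ)) atTop (𝓝 0) := by
    apply Tendsto.const_div_atTop
    exact Real.tendsto_log_atTop.comp (tendsto_natCast_atTop_atTop.comp (tendsto_add_atTop_nat 2))
  have hcau : CauchySeq f := by
    refine cauchySeq_of_le_tendsto_0' (fun n => C / Real.log ((n + 2 : ℕ) : ℝ)) ?_ hlog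
    intro n m hnm
    rw [dist_comm, Real.dist_eq]
    exact h1 (n + 2) (m + 2) (by omega) (by omega)
  obtain ⟨M, hM⟩ := cauchySeq_tendsto_of_complete hcau
  refine ⟨M, C, hC0, fun n hn => ?_⟩
  have h3 : Tendsto (fun m : ℕ => |f m - (S n - Real.log (Real.log n))|) atTop
      (𝓝 |M - (S n - Real.log (Real.log n))|) :=
    (hM.sub_const _).abs
  have h4 : |M - (S n - Real.log (Real.log n))| ≤ C / Real.log n := by
    refine le_of_tendsto h3 ?_
    filter_upwards [eventually_ge_atTop n] with m hm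
    exact h1 n (m + 2) hn (by omega)
  rw [abs_sub_comm] at h4
  exact h4

/-- the difference with the full sum -/
noncomputable def T (q n : ℕ) : ℂ := ∑ p ∈ (Finset.range (n + 1)).filter Nat.Prime,
  ((1 : DirichletCharacter ℂ q) (p : ZMod q) - 1) / (p : ℂ)

lemma Q_eq (q n : ℕ) : Q (1 : DirichletCharacter ℂ q) n = (S n : ℂ) + T q n := by
  unfold Q S T
  push_cast
  rw [← Finset.sum_add_distrib]
  refine Finset.sum_congr rfl fun p _ => ?_
  ring

lemma T_const {q : ℕ} [NeZero q] (n : ℕ) (hn : q ≤ n) : T q n = T q q := by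
  unfold T
  symm
  apply Finset.sum_subset
  · intro x hx
    simp only [Finset.mem_filter, Finset.mem_range] at hx ⊢
    exact ⟨by omega, hx.2⟩
  · intro p hp hp'
    simp only [Finset.mem_filter, Finset.mem_range] at hp hp'
    have h1 : q < p := by
      by_contra h
      exact hp' ⟨by omega, hp.2⟩
    have h2 : IsUnit ((p : ℕ) : ZMod q) := by
      rw [ZMod.isUnit_iff_coprime, Nat.Prime.coprime_iff_not_dvd hp.2]
      intro h
      have := Nat.le_of_dvd (Nat.pos_of_ne_zero (NeZero.ne q)) h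
      omega
    rw [MulChar.one_apply h2, sub_self, zero_div]

end ON

theorem Q_one {q : ℕ} [NeZero q] : ∃ (L : ℂ) (C : ℝ), ∀ n : ℕ, 3 ≤ n →
    ‖Q (1 : DirichletCharacter ℂ q) n - ((Real.log (Real.log n) : ℝ) : ℂ) - L‖ ≤
      C / Real.log n := by
  obtain ⟨M, C, hC0, hM⟩ := ON.mertens
  set D : ℝ := ∑ m ∈ Finset.range q, ‖ON.T q m - ON.T q q‖ with hD
  refine ⟨(M : ℂ) + ON.T q q, C + D * Real.log q, fun n hn => ?_⟩
  have hln : 0 < Real.log n := Real.log_pos (by exact_mod_cast (by omega : 1 < n))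
  have h1 : Q (1 : DirichletCharacter ℂ q) n - ((Real.log (Real.log n) : ℝ) : ℂ) -
      ((M : ℂ) + ON.T q q) =
      ((ON.S n - Real.log (Real.log n) - M : ℝ) : ℂ) + (ON.T q n - ON.T q q) := by
    rw [ON.Q_eq]
    push_cast
    ring
  rw [h1]
  refine (norm_add_le _ _).trans ?_
  rw [Complex.norm_real, Real.norm_eq_abs, add_div]
  refine add_le_add (hM n (by omega)) ?_
  rcases le_or_gt q n with hqn | hqn
  · rw [ON.T_const n hqn, sub_self, norm_zero]
    have h2 : 0 ≤ D := Finset.sum_nonneg fun _ _ => norm_nonneg _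
    exact div_nonneg (mul_nonneg h2 (Real.log_natCast_nonneg q)) hln.le
  · have h2 : ‖ON.T q n - ON.T q q‖ ≤ D :=
      Finset.single_le_sum (f := fun m => ‖ON.T q m - ON.T q q‖) (fun _ _ => norm_nonneg _)
        (Finset.mem_range.2 hqn)
    rw [le_div_iff₀ hln]
    have h3 : Real.log n ≤ Real.log q :=
      Real.log_le_log (by positivity) (by exact_mod_cast hqn.le)
    exact mul_le_mul h2 h3 hln.le ((norm_nonneg _).trans h2)

end Pool.Agent.TH270.CB
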