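import Pool.Agent.TH270.CB.Defs

/-!
# Orthogonality of Dirichlet characters and square roots (job 5767, helper200)
-/

set_option autoImplicit false
open MeasureTheory Filter Topology Set
open Pool.Agent.TH270.MC (McC Pc nP)
open scoped Classical
namespace Pool.Agent.TH270.CB

namespace OR

variable {q : ℕ} [NeZero q]

lemma inner (χ : DirichletCharacter ℂ q) (z : ZMod q) (w : ℂ) :
    ∑ a : (ZMod q)ˣ, χ (a : ZMod q) * (if z = (a : ZMod q) then w else 0) = χ z * w := by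
  by_cases hz : IsUnit z
  · obtain ⟨u, rfl⟩ := hz
    rw [Finset.sum_eq_single u]
    · rw [if_pos rfl]
    · intro b _ hb
      rw [if_neg, mul_zero]
      intro h
      exact hb (Units.ext h.symm)
    · intro h
      exact absurd (Finset.mem_univ _) h
  · rw [MulChar.map_nonunit _ hz, zero_mul]
    apply Finset.sum_eq_zero
    intro b _
    rw [if_neg, mul_zero]
    intro h
    exact hz (h ▸ b.isUnit)

lemma inversion (f : (ZMod q)ˣ → ℂ) (a : (ZMod q)ˣ) :
    ∑ χ : DirichletCharacter ℂ q, χ ((a⁻¹ : (ZMod q)ˣ) : ZMod q) *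
      ∑ c : (ZMod q)ˣ, χ (c : ZMod q) * f c = (q.totient : ℂ) * f a := by
  simp only [Finset.mul_sum]
  rw [Finset.sum_comm]
  have h1 : ∀ c : (ZMod q)ˣ, ∑ χ : DirichletCharacter ℂ q, χ ((a⁻¹ : (ZMod q)ˣ) : ZMod q) *
      (χ (c : ZMod q) * f c) = (if a = c then (q.totient : ℂ) else 0) * f c := by
    intro c
    have h2 := DirichletCharacter.sum_char_inv_mul_char_eq ℂ a.isUnit (c : ZMod q)
    rw [ZMod.inv_coe_unit] at h2
    simp only [← mul_assoc]
    rw [← Finset.sum_mul, h2]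
    congr 1
    by_cases h : a = c
    · rw [if_pos h, if_pos (by rw [h])]
    · rw [if_neg h, if_neg]
      intro h3
      exact h (Units.ext h3)
  simp only [h1]
  rw [Finset.sum_eq_single a]
  · rw [if_pos rfl]
  · intro b _ hb
    rw [if_neg (Ne.symm hb), zero_mul]
  · intro h
    exact absurd (Finset.mem_univ _) h

lemma sum_units {χ : DirichletCharacter ℂ q} (hχ : χ ≠ 1) :
    ∑ a : (ZMod q)ˣ, χ (a : ZMod q) = 0 := by
  have h1 := MulChar.sum_eq_zero_of_ne_one hχ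
  have h2 : ∑ z : ZMod q, χ z = ∑ z : ZMod q, ∑ a : (ZMod q)ˣ,
      χ (a : ZMod q) * (if z = (a : ZMod q) then 1 else 0) := by
    apply Finset.sum_congr rfl
    intro z _
    rw [inner, mul_one]
  rw [h1, Finset.sum_comm] at h2
  rw [h2]
  apply Finset.sum_congr rfl
  intro a _
  rw [← Finset.mul_sum]
  simp

lemma U_sum (χ : DirichletCharacter ℂ q) (n : ℕ) :
    U χ n = ∑ a : (ZMod q)ˣ, χ (a : ZMod q) * ((race (a : ZMod q) n : ℝ) : ℂ) := by
  have h1 : ∀ a : (ZMod q)ˣ, ((race (a : ZMod q) n : ℝ) : ℂ) =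
      ∑ p ∈ (Finset.range (n + 1)).filter Nat.Prime,
        if (p : ZMod q) = (a : ZMod q) then (1 / ((√(p : ℝ) : ℝ) : ℂ)) else 0 := by
    intro a
    unfold race
    push_cast
    rw [← Finset.filter_filter, Finset.sum_filter]
  simp only [h1, Finset.mul_sum]
  rw [Finset.sum_comm]
  unfold U
  apply Finset.sum_congr rfl
  intro p _
  rw [inner]
  ring

lemma one_apply (a : (ZMod q)ˣ) : (1 : DirichletCharacter ℂ q) (a : ZMod q) = 1 :=
  MulChar.one_apply a.isUnit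

lemma drop_if (a b : (ZMod q)ˣ) (g : DirichletCharacter ℂ q → ℂ) :
    (∑ χ : DirichletCharacter ℂ q,
        if χ = 1 then 0 else (χ ((a⁻¹ : (ZMod q)ˣ) : ZMod q) - χ ((b⁻¹ : (ZMod q)ˣ) : ZMod q)) *
          g χ) =
      (∑ χ : DirichletCharacter ℂ q, χ ((a⁻¹ : (ZMod q)ˣ) : ZMod q) * g χ) -
        ∑ χ : DirichletCharacter ℂ q, χ ((b⁻¹ : (ZMod q)ˣ) : ZMod q) * g χ := by
  rw [← Finset.sum_sub_distrib]
  apply Finset.sum_congr rfl
  intro χ _
  split_ifs with h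
  · rw [h, one_apply, one_apply, sub_self]
  · ring

lemma sqr_eq (a : (ZMod q)ˣ) : (sqr a : ℂ) = ∑ y : (ZMod q)ˣ, if y ^ 2 = a then (1 : ℂ) else 0 := by
  unfold sqr
  rw [Nat.card_eq_fintype_card, Fintype.card_subtype, Finset.sum_boole]

lemma V_eq (χ : DirichletCharacter ℂ q) :
    ∑ a : (ZMod q)ˣ, χ (a : ZMod q) * (sqr a : ℂ) = if χ ^ 2 = 1 then (q.totient : ℂ) else 0 := by
  simp only [sqr_eq, Finset.mul_sum]
  rw [Finset.sum_comm]
  have h1 : ∀ y : (ZMod q)ˣ, ∑ a : (ZMod q)ˣ, χ (a : ZMod q) * (if y ^ 2 = a then (1 : ℂ) else 0) =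
      (χ ^ 2) (y : ZMod q) := by
    intro y
    rw [Finset.sum_eq_single (y ^ 2)]
    · rw [if_pos rfl, mul_one, Units.val_pow_eq_pow_val, map_pow, MulChar.pow_apply_coe]
    · intro b _ hb
      rw [if_neg (Ne.symm hb), mul_zero]
    · intro h
      exact absurd (Finset.mem_univ _) h
  simp only [h1]
  split_ifs with h
  · simp only [h, one_apply, Finset.sum_const, Finset.card_univ, nsmul_eq_mul, mul_one,
      ZMod.card_units_eq_totient]
  · exact sum_units h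

lemma tot_ne : (q.totient : ℂ) ≠ 0 := by
  have : 0 < q.totient := Nat.totient_pos.mpr (Nat.pos_of_ne_zero (NeZero.ne q))
  exact_mod_cast this.ne'

lemma sqr_inv (a : (ZMod q)ˣ) :
    (∑ χ : DirichletCharacter ℂ q, χ ((a⁻¹ : (ZMod q)ˣ) : ZMod q) *
      (if χ ^ 2 = 1 then (1 : ℂ) else 0)) = sqr a := by
  have h1 := inversion (fun c => (sqr c : ℂ)) a
  simp only [V_eq] at h1
  apply mul_left_cancel₀ (tot_ne (q := q))
  rw [← h1, Finset.mul_sum]
  apply Finset.sum_congr rfl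
  intro χ _
  split_ifs <;> ring

end OR

open OR in
theorem race_eq {q : ℕ} [NeZero q] (a b : (ZMod q)ˣ) (n : ℕ) :
    ((race (a : ZMod q) n - race (b : ZMod q) n : ℝ) : ℂ) = (1 / (q.totient : ℂ)) *
      ∑ χ : DirichletCharacter ℂ q,
        if χ = 1 then 0 else (χ ((a⁻¹ : (ZMod q)ˣ) : ZMod q) - χ ((b⁻¹ : (ZMod q)ˣ) : ZMod q)) * U χ n := by
  rw [drop_if a b (fun χ => U χ n)]
  simp only [U_sum]
  rw [inversion (fun c => ((race (c : ZMod q) n : ℝ) : ℂ)) a,
    inversion (fun c => ((race (c : ZMod q) n : ℝ) : ℂ)) b]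
  have := tot_ne (q := q)
  push_cast
  field_simp

open OR in
theorem U_eq {q : ℕ} [NeZero q] {χ : DirichletCharacter ℂ q} (hχ : χ ≠ 1) (n : ℕ) :
    U χ n = ∑ a : (ZMod q)ˣ, χ (a : ZMod q) *
      ((race (a : ZMod q) n - race (1 : ZMod q) n : ℝ) : ℂ) := by
  push_cast
  simp only [mul_sub, Finset.sum_sub_distrib]
  rw [← U_sum, ← Finset.sum_mul, sum_units hχ, zero_mul, sub_zero]

open OR in
theorem sqr_sum {q : ℕ} [NeZero q] (a b : (ZMod q)ˣ) :
    ((sqr a : ℂ) - sqr b) = ∑ χ : DirichletCharacter ℂ q,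
      if χ = 1 then 0 else (χ ((a⁻¹ : (ZMod q)ˣ) : ZMod q) - χ ((b⁻¹ : (ZMod q)ˣ) : ZMod q)) *
        (if χ ^ 2 = 1 then 1 else 0) := by
  rw [drop_if a b (fun χ => if χ ^ 2 = 1 then 1 else 0), sqr_inv, sqr_inv]

open OR in
theorem sqr_orth {q : ℕ} [NeZero q] {χ : DirichletCharacter ℂ q} (hχ : χ ≠ 1) :
    ∑ a : (ZMod q)ˣ, χ (a : ZMod q) * ((sqr (1 : (ZMod q)ˣ) : ℂ) - sqr a) =
      -(if χ ^ 2 = 1 then (q.totient : ℂ) else 0) := by
  simp only [mul_sub, Finset.sum_sub_distrib]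
  rw [V_eq, ← Finset.sum_mul, sum_units hχ, zero_mul, zero_sub]

end Pool.Agent.TH270.CB
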