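import Pool.Agent.TH270.CB.Defs2
import Pool.Agent.TH270.CB.Mcc
import Pool.Agent.TH270.CB.McH

/-!
# Splitting off the primes and the squares of primes
-/

set_option autoImplicit false
open MeasureTheory Filter Topology Set
open Pool.Agent.TH942.ES
open Pool.Agent.TH270.MC (McC Pc nP CS cC nP_pos)
open scoped Classical
namespace Pool.Agent.TH270.CB

namespace SP

theorem tail_gen {X : Type} {d : ℕ} {N : X → ℕ} {α : X → Fin d → ℂ} (E : CS N α) (k₀ : ℕ) {K : ℝ}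
    (hK : 0 ≤ K)
    (hb : ∀ (v : X) (k : ℕ) (Y : ℝ), 0 < Y → k₀ ≤ k → Y < (N v : ℝ) ^ (k + 1) →
      ‖cC N α (v, k)‖ ≤ Y ^ (-(1 / 12) : ℝ) * (K * (N v : ℝ) ^ (-(5 / 4) : ℝ) * (4 / 5) ^ k)) :
    ∃ (L : ℂ) (C : ℝ), ∀ n : ℕ, 1 ≤ n →
      ‖∑ p ∈ (E.empty.finS (n : ℝ)).toFinset.filter (fun p => k₀ ≤ p.2), cC N α p - L‖ ≤
        C * (n : ℝ) ^ (-(1 / 12) : ℝ) := by
  set g : X × ℕ → ℝ := fun p => K * (N p.1 : ℝ) ^ (-(5 / 4) : ℝ) * (4 / 5) ^ p.2 with hg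
  have hgs : Summable g := by
    have h1 : Summable fun v => K * (N v : ℝ) ^ (-(5 / 4) : ℝ) :=
      (E.sum (5 / 4) (by norm_num)).mul_left K
    have h2 : Summable fun k : ℕ => ((4 : ℝ) / 5) ^ k :=
      summable_geometric_of_lt_one (by norm_num) (by norm_num)
    exact h1.mul_of_nonneg h2 (fun v => by positivity) (fun k => by positivity)
  set f : X × ℕ → ℂ := fun p => if k₀ ≤ p.2 then cC N α p else 0 with hf
  have hfg : ∀ p, ‖f p‖ ≤ g p := by
    intro p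
    simp only [hf, hg]
    split_ifs with h1
    · have h2 : (1 : ℝ) < (N p.1 : ℝ) ^ (p.2 + 1) :=
        one_lt_pow₀ (by have := E.empty.Ntwo p.1; linarith) (by omega)
      have h3 := hb p.1 p.2 1 one_pos h1 h2
      rw [Real.one_rpow, one_mul] at h3
      exact h3
    · rw [norm_zero]
      positivity
  have hfs : Summable f := Summable.of_norm_bounded hgs hfg
  refine ⟨∑' p, f p, ∑' p, g p, fun n hn => ?_⟩
  have hn0 : (0 : ℝ) < n := by exact_mod_cast hn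
  set S := (E.empty.finS (n : ℝ)).toFinset with hS
  have h1 : ∑ p ∈ S.filter (fun p => k₀ ≤ p.2), cC N α p = ∑ p ∈ S, f p := by
    rw [Finset.sum_filter]
  rw [h1]
  have h2 : HasSum (fun p => if p ∈ S then f p else 0) (∑ p ∈ S, f p) := by
    have h3 : ∑ p ∈ S, f p = ∑ p ∈ S, if p ∈ S then f p else 0 :=
      Finset.sum_congr rfl fun p hp => by rw [if_pos hp]
    rw [h3]
    exact hasSum_sum_of_ne_finset_zero fun p hp => by rw [if_neg hp]
  have h4 := hfs.hasSum.sub h2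
  have h5 : ∀ p, ‖f p - (if p ∈ S then f p else 0)‖ ≤ (n : ℝ) ^ (-(1 / 12) : ℝ) * g p := by
    intro p
    have hg0 : 0 ≤ g p := (norm_nonneg _).trans (hfg p)
    split_ifs with h6
    · rw [sub_self, norm_zero]
      positivity
    · rw [sub_zero]
      simp only [hf, hg]
      split_ifs with h7
      · refine hb p.1 p.2 n hn0 h7 ?_
        by_contra h8
        exact h6 ((Set.Finite.mem_toFinset _).2 (not_lt.1 h8))
      · rw [norm_zero]
        positivity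
  have h6 : ‖∑' p, f p - ∑ p ∈ S, f p‖ ≤ (n : ℝ) ^ (-(1 / 12) : ℝ) * ∑' p, g p := by
    rw [← h4.tsum_eq]
    exact tsum_of_norm_bounded (hgs.hasSum.mul_left _) h5
  rw [← norm_neg, neg_sub, mul_comm]
  exact h6

theorem layer {d : ℕ} {α : Nat.Primes → Fin d → ℂ} (E : CS nP α) (k n M : ℕ)
    (hM : ∀ m : ℕ, m ^ (k + 1) ≤ n ↔ m ≤ M) (g : ℕ → ℂ) (hg : ∀ v : Nat.Primes, cC nP α (v, k) = g v) :
    ∑ p ∈ (E.empty.finS (n : ℝ)).toFinset.filter (fun p => p.2 = k), cC nP α p =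
      ∑ m ∈ (Finset.range (M + 1)).filter Nat.Prime, g m := by
  have hmem : ∀ p : Nat.Primes × ℕ, p ∈ (E.empty.finS (n : ℝ)).toFinset ↔
      (p.1 : ℕ) ^ (p.2 + 1) ≤ n := by
    intro p
    rw [Set.Finite.mem_toFinset]
    have e : ((nP p.1 : ℕ) : ℝ) ^ (p.2 + 1) ≤ (n : ℝ) ↔ (p.1 : ℕ) ^ (p.2 + 1) ≤ n := by
      rw [← Nat.cast_pow, Nat.cast_le]
      rfl
    exact e
  refine Finset.sum_bij (fun p _ => (p.1 : ℕ)) ?_ ?_ ?_ ?_
  · intro p hp
    rw [Finset.mem_filter, hmem] at hp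
    rw [Finset.mem_filter, Finset.mem_range]
    have h1 := hp.1
    rw [hp.2] at h1
    exact ⟨Nat.lt_succ_of_le ((hM _).1 h1), p.1.2⟩
  · intro p hp p' hp' h
    rw [Finset.mem_filter] at hp hp'
    exact Prod.ext (Subtype.ext h) (hp.2.trans hp'.2.symm)
  · intro m hm
    rw [Finset.mem_filter, Finset.mem_range] at hm
    refine ⟨(⟨m, hm.2⟩, k), ?_, rfl⟩
    rw [Finset.mem_filter, hmem]
    exact ⟨(hM m).2 (Nat.le_of_lt_succ hm.1), rfl⟩
  · intro p hp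
    rw [Finset.mem_filter] at hp
    rw [← hg p.1]
    congr 1
    exact Prod.ext rfl hp.2

theorem pc_sum {X : Type} {d : ℕ} {N : X → ℕ} {α : X → Fin d → ℂ} (E : CS N α) (Y : ℝ) :
    Pc N α Y = ∑ p ∈ (E.empty.finS Y).toFinset, cC N α p :=
  finsum_mem_eq_finite_toFinset_sum (fun p : X × ℕ => cC N α p) (E.empty.finS Y)

theorem zv_al {q : ℕ} (χ : DirichletCharacter ℂ q) (v : Nat.Primes) (i : Fin 1) :
    zv nP (al χ) v i = χ ((v : ℕ) : ZMod q) / ((√((v : ℕ) : ℝ) : ℝ) : ℂ) := rfl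

theorem sqrt_sq (v : Nat.Primes) :
    ((√((v : ℕ) : ℝ) : ℝ) : ℂ) * ((√((v : ℕ) : ℝ) : ℝ) : ℂ) = ((v : ℕ) : ℂ) := by
  rw [← Complex.ofReal_mul, Real.mul_self_sqrt (nP_pos v).le]
  push_cast
  rfl

theorem zv_al2 {q : ℕ} (ψ : DirichletCharacter ℂ q) (v : Nat.Primes) (i : Fin 1) :
    zv nP (al2 ψ) v i = ψ ((v : ℕ) : ZMod q) / ((v : ℕ) : ℂ) := by
  have h1 : zv nP (al2 ψ) v i =
      ψ ((v : ℕ) : ZMod q) / ((√((v : ℕ) : ℝ) : ℝ) : ℂ) / ((√((v : ℕ) : ℝ) : ℝ) : ℂ) := rfl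
  rw [h1, div_div, sqrt_sq]

end SP

open SP in
theorem pc_eq2 {q : ℕ} [NeZero q] (ψ : DirichletCharacter ℂ q) :
    ∃ (L : ℂ) (C : ℝ), ∀ n : ℕ, 1 ≤ n →
      ‖Pc nP (al2 ψ) (n : ℝ) - Q ψ n - L‖ ≤ C * (n : ℝ) ^ (-(1 / 12) : ℝ) := by
  have E := MH.cs ψ
  obtain ⟨L, C, h⟩ := tail_gen E 1 (K := 25 / 16) (by norm_num) (by
    intro v k Y hY hk hlt
    have hN := E.empty.Npos v
    have hN2 := E.empty.Ntwo v
    have h1 : ‖cC nP (al2 ψ) (v, k)‖ ≤ (1 / (nP v : ℝ)) ^ (k + 1) := by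
      unfold cC
      have h0 : ‖((k : ℂ) + 1)‖ = (k : ℝ) + 1 := by
        have : ((k : ℂ) + 1) = (((k : ℝ) + 1 : ℝ) : ℂ) := by push_cast; rfl
        rw [this, Complex.norm_real, Real.norm_eq_abs, abs_of_pos (by positivity)]
      simp only [Fin.sum_univ_one]
      rw [norm_div, h0, zv_al2, norm_pow, norm_div, Complex.norm_natCast]
      refine (div_le_self (by positivity) ?_).trans ?_
      · have : (0 : ℝ) ≤ k := Nat.cast_nonneg _
        linarith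
      · refine pow_le_pow_left₀ (by positivity) ?_ _
        exact div_le_div_of_nonneg_right (DirichletCharacter.norm_le_one ψ _) (Nat.cast_nonneg _)
    refine h1.trans ?_
    have e1 : (1 / (nP v : ℝ)) ^ (k + 1) =
        ((nP v : ℝ) ^ (k + 1)) ^ (-(1 / 12) : ℝ) * ((nP v : ℝ) ^ (-(11 / 12) : ℝ)) ^ (k + 1) := by
      have e2 : 1 / (nP v : ℝ) = (nP v : ℝ) ^ (-(1 / 12) : ℝ) * (nP v : ℝ) ^ (-(11 / 12) : ℝ) := by
        rw [← Real.rpow_add hN]
        norm_num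
        rw [Real.rpow_neg_one]
      have e3 : ((nP v : ℝ) ^ (k + 1)) ^ (-(1 / 12) : ℝ) =
          ((nP v : ℝ) ^ (-(1 / 12) : ℝ)) ^ (k + 1) := by
        rw [← Real.rpow_natCast, ← Real.rpow_natCast, ← Real.rpow_mul hN.le, ← Real.rpow_mul hN.le,
          mul_comm]
      rw [e2, mul_pow, e3]
    rw [e1]
    refine mul_le_mul (Real.rpow_le_rpow_of_nonpos hY hlt.le (by norm_num)) ?_ (by positivity)
      (by positivity)
    obtain ⟨j, rfl⟩ : ∃ j, k = j + 1 := ⟨k - 1, by omega⟩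
    have ha0 : 0 < (nP v : ℝ) ^ (-(5 / 12) : ℝ) := Real.rpow_pos_of_pos hN _
    have ha := Pool.Agent.TH270.MS.Tail.a_le hN2
    have hb0 : (nP v : ℝ) ^ (-(11 / 12) : ℝ) ≤ 4 / 5 := by
      refine le_trans ?_ ha
      exact Real.rpow_le_rpow_of_exponent_le (by linarith) (by norm_num)
    have h2 : ((nP v : ℝ) ^ (-(11 / 12) : ℝ)) ^ 2 ≤ (nP v : ℝ) ^ (-(5 / 4) : ℝ) := by
      rw [← Real.rpow_natCast, ← Real.rpow_mul hN.le]
      exact Real.rpow_le_rpow_of_exponent_le (by linarith) (by norm_num)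
    have h3 : ((nP v : ℝ) ^ (-(11 / 12) : ℝ)) ^ (j + 1 + 1) ≤
        (nP v : ℝ) ^ (-(5 / 4) : ℝ) * (4 / 5) ^ j := by
      rw [show j + 1 + 1 = 2 + j by ring, pow_add]
      exact mul_le_mul h2 (pow_le_pow_left₀ (by positivity) hb0 j) (by positivity) (by positivity)
    refine h3.trans ?_
    rw [pow_succ]
    have h4 : 0 ≤ (nP v : ℝ) ^ (-(5 / 4) : ℝ) * (4 / 5) ^ j := by positivity
    linarith)
  refine ⟨L, C, fun n hn => ?_⟩
  have h1 := h n hn
  have h2 : Pc nP (al2 ψ) (n : ℝ) - Q ψ n =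
      ∑ p ∈ (E.empty.finS (n : ℝ)).toFinset.filter (fun p => 1 ≤ p.2), cC nP (al2 ψ) p := by
    rw [pc_sum E, ← Finset.sum_filter_add_sum_filter_not _ (fun p : Nat.Primes × ℕ => 1 ≤ p.2)]
    have h3 : ∑ p ∈ (E.empty.finS (n : ℝ)).toFinset.filter (fun p => ¬ 1 ≤ p.2), cC nP (al2 ψ) p =
        Q ψ n := by
      have h4 : (E.empty.finS (n : ℝ)).toFinset.filter (fun p => ¬ 1 ≤ p.2) =
          (E.empty.finS (n : ℝ)).toFinset.filter (fun p => p.2 = 0) :=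
        Finset.filter_congr fun p _ => by omega
      rw [h4]
      refine layer E 0 n n (fun m => by simp) (fun m => ψ (m : ZMod q) / (m : ℂ)) fun v => ?_
      unfold cC
      simp only [Fin.sum_univ_one, zv_al2]
      simp
    rw [h3]
    ring
  rw [h2]
  exact h1

open SP in
theorem pc_eq3 {q : ℕ} [NeZero q] (χ : DirichletCharacter ℂ q) :
    ∃ (L : ℂ) (C : ℝ), ∀ n : ℕ, 1 ≤ n →
      ‖Pc nP (al χ) (n : ℝ) - U χ n - (1 / 2 : ℂ) * Q (χ ^ 2) (Nat.sqrt n) - L‖ ≤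
        C * (n : ℝ) ^ (-(1 / 12) : ℝ) := by
  have E := MD.cs χ
  obtain ⟨L, C, h⟩ := tail_gen E 2 (K := 25 / 16) (by norm_num) (by
    intro v k Y hY hk hlt
    obtain ⟨j, rfl⟩ : ∃ j, k = j + 2 := ⟨k - 2, by omega⟩
    have h1 := Pool.Agent.TH270.MC.Tail.term_leC E hY v j hlt
    refine h1.trans (le_of_eq ?_)
    push_cast
    ring)
  refine ⟨L, C, fun n hn => ?_⟩
  have h1 := h n hn
  have h2 : Pc nP (al χ) (n : ℝ) - U χ n - (1 / 2 : ℂ) * Q (χ ^ 2) (Nat.sqrt n) =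
      ∑ p ∈ (E.empty.finS (n : ℝ)).toFinset.filter (fun p => 2 ≤ p.2), cC nP (al χ) p := by
    rw [pc_sum E, ← Finset.sum_filter_add_sum_filter_not _ (fun p : Nat.Primes × ℕ => 2 ≤ p.2)]
    have h4 : (E.empty.finS (n : ℝ)).toFinset.filter (fun p => ¬ 2 ≤ p.2) =
        (E.empty.finS (n : ℝ)).toFinset.filter (fun p => p.2 = 0) ∪
        (E.empty.finS (n : ℝ)).toFinset.filter (fun p => p.2 = 1) := by
      rw [← Finset.filter_or]
      exact Finset.filter_congr fun p _ => by omega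
    have h5 : Disjoint ((E.empty.finS (n : ℝ)).toFinset.filter (fun p : Nat.Primes × ℕ => p.2 = 0))
        ((E.empty.finS (n : ℝ)).toFinset.filter (fun p : Nat.Primes × ℕ => p.2 = 1)) := by
      rw [Finset.disjoint_filter]
      intro p _ h6 h7
      omega
    have h6 : ∑ p ∈ (E.empty.finS (n : ℝ)).toFinset.filter (fun p => p.2 = 0), cC nP (al χ) p =
        U χ n := by
      refine layer E 0 n n (fun m => by simp) (fun m => χ (m : ZMod q) / ((√(m : ℝ) : ℝ) : ℂ))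
        fun v => ?_
      unfold cC
      simp only [Fin.sum_univ_one, zv_al]
      simp
    have h7 : ∑ p ∈ (E.empty.finS (n : ℝ)).toFinset.filter (fun p => p.2 = 1), cC nP (al χ) p =
        (1 / 2 : ℂ) * Q (χ ^ 2) (Nat.sqrt n) := by
      unfold Q
      rw [Finset.mul_sum]
      refine layer E 1 n (Nat.sqrt n) (fun m => by rw [Nat.le_sqrt, pow_two])
        (fun m => (1 / 2 : ℂ) * ((χ ^ 2) (m : ZMod q) / (m : ℂ))) fun v => ?_
      unfold cC
      simp only [Fin.sum_univ_one, zv_al]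
      rw [div_pow, ← sqrt_sq v, MulChar.pow_apply' _ (by norm_num)]
      push_cast
      ring
    rw [h4, Finset.sum_union h5, h6, h7]
    ring
  rw [h2]
  exact h1

end Pool.Agent.TH270.CB
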