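import Mathlib

/-!
Four elementary summability lemmas.
-/

set_option autoImplicit false

open MeasureTheory Filter Topology Set

open scoped Classical

namespace Pool.Agent.TH270.CB

namespace SU

theorem block {g : ℕ → ℝ} (hg : ∀ n, 0 ≤ g n) (M : ℕ) :
    ∑ n ∈ Finset.range (M ^ 2), g (Nat.sqrt n) / n ≤ 3 * ∑ m ∈ Finset.range M, g m / m := by
  induction M with
  | zero => simp
  | succ M ih =>
    have e : (M + 1) ^ 2 = M ^ 2 + (2 * M + 1) := by ring
    rw [e, Finset.sum_range_add, Finset.sum_range_succ (fun m : ℕ => g m / (m : ℝ)) M, mul_add]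
    refine add_le_add ih ?_
    rcases Nat.eq_zero_or_pos M with h0 | h0
    · subst h0
      simp
    · have hM : (1 : ℝ) ≤ M := by exact_mod_cast h0
      have h1 : ∀ x ∈ Finset.range (2 * M + 1),
          g (Nat.sqrt (M ^ 2 + x)) / ((M ^ 2 + x : ℕ) : ℝ) ≤ g M / (M : ℝ) ^ 2 := by
        intro x hx
        have hx' := Finset.mem_range.mp hx
        have h2 : Nat.sqrt (M ^ 2 + x) = M := Nat.sqrt_add_eq' M (by omega)
        rw [h2]
        refine div_le_div_of_nonneg_left (hg M) (by positivity) ?_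
        push_cast
        have : (0 : ℝ) ≤ x := Nat.cast_nonneg x
        linarith
      refine (Finset.sum_le_sum h1).trans ?_
      rw [Finset.sum_const, Finset.card_range, nsmul_eq_mul]
      push_cast
      have h3 : (2 * (M : ℝ) + 1) * (g M / (M : ℝ) ^ 2) ≤ (3 * (M : ℝ)) * (g M / (M : ℝ) ^ 2) :=
        mul_le_mul_of_nonneg_right (by linarith) (div_nonneg (hg M) (by positivity))
      refine h3.trans (le_of_eq ?_)
      field_simp

theorem log_step {n : ℕ} (hn : 3 ≤ n) :
    1 / ((n : ℝ) * Real.log n ^ 2) ≤ 1 / Real.log ((n : ℝ) - 1) - 1 / Real.log n := by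
  have hn' : (3 : ℝ) ≤ n := by exact_mod_cast hn
  have h1 : 0 < Real.log ((n : ℝ) - 1) := Real.log_pos (by linarith)
  have h2 : Real.log ((n : ℝ) - 1) ≤ Real.log n := Real.log_le_log (by linarith) (by linarith)
  have h3 : 0 < Real.log n := lt_of_lt_of_le h1 h2
  have h4 : 1 / (n : ℝ) ≤ Real.log n - Real.log ((n : ℝ) - 1) := by
    have h5 : Real.log (((n : ℝ) - 1) / n) ≤ ((n : ℝ) - 1) / n - 1 :=
      Real.log_le_sub_one_of_pos (div_pos (by linarith) (by linarith))
    rw [Real.log_div (by linarith) (by linarith)] at h5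
    have h6 : ((n : ℝ) - 1) / n - 1 = -(1 / n) := by field_simp; ring
    rw [h6] at h5
    linarith
  have h7 : 1 / Real.log ((n : ℝ) - 1) - 1 / Real.log n =
      (Real.log n - Real.log ((n : ℝ) - 1)) / (Real.log ((n : ℝ) - 1) * Real.log n) := by
    field_simp
  rw [h7]
  calc 1 / ((n : ℝ) * Real.log n ^ 2) = (1 / n) / (Real.log n * Real.log n) := by
        field_simp
    _ ≤ (1 / n) / (Real.log ((n : ℝ) - 1) * Real.log n) := by
        refine div_le_div_of_nonneg_left (by positivity) (by positivity) ?_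
        exact mul_le_mul_of_nonneg_right h2 h3.le
    _ ≤ _ := div_le_div_of_nonneg_right h4 (by positivity)

theorem sum_log : Summable fun n : ℕ => 1 / ((n : ℝ) * Real.log n ^ 2) := by
  rw [← summable_nat_add_iff 3]
  have key : ∀ N : ℕ, ∑ i ∈ Finset.range N,
      1 / (((i + 3 : ℕ) : ℝ) * Real.log ((i + 3 : ℕ) : ℝ) ^ 2) ≤
        1 / Real.log 2 - 1 / Real.log ((N : ℝ) + 2) := by
    intro N
    induction N with
    | zero => simp
    | succ N ih =>
      rw [Finset.sum_range_succ]
      have h := log_step (n := N + 3) (by omega)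
      have e1 : ((N + 3 : ℕ) : ℝ) - 1 = (N : ℝ) + 2 := by push_cast; ring
      have e2 : ((N + 1 : ℕ) : ℝ) + 2 = ((N + 3 : ℕ) : ℝ) := by push_cast; ring
      rw [e1] at h
      rw [e2]
      linarith
  refine summable_of_sum_range_le (c := 1 / Real.log 2) (fun n => by positivity) fun N => ?_
  refine (key N).trans ?_
  have : 0 ≤ 1 / Real.log ((N : ℝ) + 2) := by
    have hN : (0 : ℝ) ≤ N := Nat.cast_nonneg N
    have : 0 ≤ Real.log ((N : ℝ) + 2) := Real.log_nonneg (by linarith)
    positivity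
  linarith

theorem bracket {n : ℕ} (hn : 9 ≤ n) :
    |Real.log (Real.log (Nat.sqrt n)) - Real.log (Real.log n) + Real.log 2| ≤
      2 / Real.log n := by
  obtain ⟨s, hs⟩ : ∃ s, s = Nat.sqrt n := ⟨_, rfl⟩
  rw [← hs]
  have h3 : 3 ≤ s := by
    rw [hs, Nat.le_sqrt]
    omega
  have hs1 : s * s ≤ n := by rw [hs]; exact Nat.sqrt_le n
  have hs2 : n < (s + 1) * (s + 1) := by rw [hs]; exact Nat.lt_succ_sqrt n
  have r3 : (3 : ℝ) ≤ s := by exact_mod_cast h3
  have r1 : (s : ℝ) * s ≤ n := by exact_mod_cast hs1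
  have r2 : (n : ℝ) ≤ ((s : ℝ) + 1) * (s + 1) := by exact_mod_cast hs2.le
  have hls : 1 ≤ Real.log s := by
    rw [Real.le_log_iff_exp_le (by linarith)]
    have := Real.exp_one_lt_d9
    linarith
  have a1 : 2 * Real.log s ≤ Real.log n := by
    have : Real.log ((s : ℝ) * s) ≤ Real.log n := Real.log_le_log (by positivity) r1
    rw [Real.log_mul (by linarith) (by linarith)] at this
    linarith
  have a2 : Real.log n ≤ 2 * Real.log s + 2 / s := by
    have b1 : Real.log n ≤ Real.log (((s : ℝ) + 1) * (s + 1)) :=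
      Real.log_le_log (by nlinarith) r2
    rw [Real.log_mul (by linarith) (by linarith)] at b1
    have b2 : Real.log ((s : ℝ) + 1) ≤ Real.log s + 1 / s := by
      have b3 : Real.log (((s : ℝ) + 1) / s) ≤ ((s : ℝ) + 1) / s - 1 :=
        Real.log_le_sub_one_of_pos (by positivity)
      rw [Real.log_div (by linarith) (by linarith)] at b3
      have b4 : ((s : ℝ) + 1) / s - 1 = 1 / s := by field_simp; ring
      rw [b4] at b3
      linarith
    have b5 : 2 / (s : ℝ) = 2 * (1 / s) := by ring
    rw [b5]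
    linarith
  have hn0 : 0 < Real.log n := by linarith
  -- the bracket
  have c1 : Real.log (Real.log n) - Real.log 2 = Real.log (Real.log n / 2) := by
    rw [Real.log_div hn0.ne' (by norm_num)]
  have c2 : Real.log (Real.log s) ≤ Real.log (Real.log n / 2) :=
    Real.log_le_log (by linarith) (by linarith)
  have c3 : Real.log (Real.log n / 2) - Real.log (Real.log s) ≤ 1 / s := by
    have d1 : Real.log ((Real.log n / 2) / Real.log s) ≤ (Real.log n / 2) / Real.log s - 1 :=
      Real.log_le_sub_one_of_pos (by positivity)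
    rw [Real.log_div (by positivity) (by linarith)] at d1
    have d2 : (Real.log n / 2) / Real.log s - 1 ≤ 1 / s := by
      rw [div_sub_one (by linarith), div_le_iff₀ (by linarith)]
      have d3 : 1 / (s : ℝ) ≤ 1 / s * Real.log s := le_mul_of_one_le_right (by positivity) hls
      have d4 : 2 / (s : ℝ) = 2 * (1 / s) := by ring
      rw [d4] at a2
      linarith
    linarith
  have c4 : 1 / (s : ℝ) ≤ 2 / Real.log n := by
    rw [div_le_div_iff₀ (by linarith) hn0]
    have e1 : Real.log s ≤ s - 1 := Real.log_le_sub_one_of_pos (by linarith)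
    have e2 : 2 / (s : ℝ) ≤ 1 := by rw [div_le_one (by linarith)]; linarith
    linarith
  rw [abs_le]
  constructor
  · linarith
  · have : 0 ≤ 2 / Real.log n := by positivity
    linarith

end SU

theorem sqrt_transfer {g : ℕ → ℝ} (hg : ∀ n, 0 ≤ g n) (h : Summable fun n : ℕ => g n / n) :
    Summable fun n : ℕ => g (Nat.sqrt n) / n := by
  have hnn : ∀ n : ℕ, 0 ≤ g n / n := fun n => div_nonneg (hg n) (Nat.cast_nonneg n)
  have hnn2 : ∀ n : ℕ, 0 ≤ g (Nat.sqrt n) / n := fun n => div_nonneg (hg _) (Nat.cast_nonneg n)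
  refine summable_of_sum_range_le (c := 3 * ∑' n : ℕ, g n / n) hnn2 fun N => ?_
  have h1 : ∑ n ∈ Finset.range N, g (Nat.sqrt n) / n ≤
      ∑ n ∈ Finset.range (N ^ 2), g (Nat.sqrt n) / n := by
    refine Finset.sum_le_sum_of_subset_of_nonneg ?_ fun n _ _ => hnn2 n
    intro x hx
    have hx' := Finset.mem_range.mp hx
    exact Finset.mem_range.mpr (lt_of_lt_of_le hx' (Nat.le_self_pow (by norm_num) N))
  refine h1.trans ((SU.block hg N).trans ?_)
  exact mul_le_mul_of_nonneg_left (h.sum_le_tsum _ fun n _ => hnn n) (by norm_num)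

theorem summable_log {C : ℝ} : Summable fun n : ℕ => (C / Real.log n) ^ 2 / n := by
  refine (SU.sum_log.mul_left (C ^ 2)).congr fun n => ?_
  rw [div_pow, mul_one_div, div_div, mul_comm (n : ℝ)]

theorem loglog_sqrt : Summable fun n : ℕ =>
    (Real.log (Real.log (Nat.sqrt n)) - Real.log (Real.log n) + Real.log 2) ^ 2 / n := by
  refine Summable.of_norm_bounded_eventually_nat (summable_log (C := 2)) ?_
  filter_upwards [eventually_ge_atTop 9] with n hn
  have h1 := SU.bracket hn
  have hn0 : (0 : ℝ) ≤ n := Nat.cast_nonneg n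
  rw [Real.norm_eq_abs, abs_of_nonneg (by positivity)]
  refine div_le_div_of_nonneg_right ?_ hn0
  rw [← sq_abs]
  exact pow_le_pow_left₀ (abs_nonneg _) h1 2

theorem summable_pow {C : ℝ} : Summable fun n : ℕ => (C * (n : ℝ) ^ (-(1 / 12) : ℝ)) ^ 2 / n := by
  have h : Summable fun n : ℕ => (n : ℝ) ^ (-(7 / 6) : ℝ) := by
    rw [Real.summable_nat_rpow]
    norm_num
  refine (h.mul_left (C ^ 2)).congr fun n => ?_
  rcases Nat.eq_zero_or_pos n with h0 | h0
  · subst h0
    rw [Nat.cast_zero, Real.zero_rpow (by norm_num)]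
    simp
  · have hn : (0 : ℝ) < n := by exact_mod_cast h0
    rw [mul_pow, ← Real.rpow_natCast ((n : ℝ) ^ (-(1 / 12) : ℝ)) 2, ← Real.rpow_mul hn.le,
      mul_div_assoc]
    congr 1
    rw [eq_div_iff hn.ne']
    nth_rewrite 2 [← Real.rpow_one (n : ℝ)]
    rw [← Real.rpow_add hn]
    norm_num

end Pool.Agent.TH270.CB
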