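import Pool.Agent.TH270.CB.Mean
import Pool.Agent.TH270.CB.Mcc
import Pool.Agent.TH270.CB.Orth
import Pool.Agent.TH270.CB.Sums
import Pool.Agent.TH270.CB.One
import Pool.Agent.TH270.CB.McH
import Pool.Agent.TH270.CB.Split

/-!
# Chebyshev's bias in the logarithmic mean square and the Riemann hypothesis
-/

set_option autoImplicit false

open MeasureTheory Filter Topology Set
open Pool.Agent.TH270.MC (McC Pc nP)
open scoped Classical

namespace Pool.Agent.TH270.CB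

/-- square summability with respect to the logarithmic measure -/
def SS (f : ℕ → ℂ) : Prop := Summable fun n : ℕ => ‖f n‖ ^ 2 / n

theorem SS.mono' {f g : ℕ → ℂ} (hf : SS f) {N : ℕ} (h : ∀ n, N ≤ n → ‖g n‖ ≤ ‖f n‖) : SS g := by
  unfold SS at *
  rw [← summable_nat_add_iff N] at hf ⊢
  refine Summable.of_nonneg_of_le (fun n => by positivity) (fun n => ?_) hf
  exact div_le_div_of_nonneg_right (pow_le_pow_left₀ (norm_nonneg _) (h _ (by omega)) 2)
    (Nat.cast_nonneg _)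

theorem SS.mono {f g : ℕ → ℂ} (hf : SS f) (h : ∀ n, ‖g n‖ ≤ ‖f n‖) : SS g :=
  hf.mono' (N := 0) fun n _ => h n

theorem SS.add {f g : ℕ → ℂ} (hf : SS f) (hg : SS g) : SS fun n => f n + g n := by
  unfold SS at *
  refine Summable.of_nonneg_of_le (fun n => by positivity) (fun n => ?_)
    ((hf.mul_left 2).add (hg.mul_left 2))
  have h1 : ‖f n + g n‖ ^ 2 ≤ 2 * ‖f n‖ ^ 2 + 2 * ‖g n‖ ^ 2 := by
    have h2 := norm_add_le (f n) (g n)
    have h3 := pow_le_pow_left₀ (norm_nonneg _) h2 2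
    nlinarith [sq_nonneg (‖f n‖ - ‖g n‖)]
  calc ‖f n + g n‖ ^ 2 / n ≤ (2 * ‖f n‖ ^ 2 + 2 * ‖g n‖ ^ 2) / n :=
        div_le_div_of_nonneg_right h1 (Nat.cast_nonneg n)
    _ = _ := by ring

theorem SS.mul {f : ℕ → ℂ} (hf : SS f) (c : ℂ) : SS fun n => c * f n := by
  unfold SS at *
  refine (hf.mul_left (‖c‖ ^ 2)).congr fun n => ?_
  rw [norm_mul, mul_pow, mul_div_assoc]

theorem SS.zero : SS fun _ => 0 := by
  unfold SS
  simp [summable_zero]

theorem SS.sum {ι : Type} (s : Finset ι) {f : ι → ℕ → ℂ} (h : ∀ i ∈ s, SS (f i)) :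
    SS fun n => ∑ i ∈ s, f i n := by
  classical
  induction s using Finset.induction_on with
  | empty => simpa using SS.zero
  | insert a s ha ih =>
    simp only [Finset.sum_insert ha]
    exact (h a (Finset.mem_insert_self _ _)).add (ih fun i hi => h i (Finset.mem_insert_of_mem hi))

/-- a bound by a real sequence from some point on -/
theorem SS.of_le {f : ℕ → ℂ} {g : ℕ → ℝ} (hg : Summable fun n : ℕ => g n ^ 2 / n) {N : ℕ}
    (h : ∀ n, N ≤ n → ‖f n‖ ≤ g n) : SS f := by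
  unfold SS
  rw [← summable_nat_add_iff N] at hg ⊢
  refine Summable.of_nonneg_of_le (fun n => by positivity) (fun n => ?_) hg
  exact div_le_div_of_nonneg_right (pow_le_pow_left₀ (norm_nonneg _) (h _ (by omega)) 2)
    (Nat.cast_nonneg _)

theorem SS.transfer {f : ℕ → ℂ} (hf : SS f) : SS fun n => f (Nat.sqrt n) :=
  sqrt_transfer (g := fun n => ‖f n‖ ^ 2) (fun n => by positivity) hf

/-- the sums of `ψ(p)/p`, `ψ ≠ 1` -/
theorem Q_ss {q : ℕ} [NeZero q] {ψ : DirichletCharacter ℂ q} (hψ : ψ ≠ 1) :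
    ∃ L : ℂ, SS fun n => Q ψ n - L := by
  obtain ⟨C, H⟩ := mcc2 hψ
  obtain ⟨ℓ, -, h⟩ := Pool.Agent.TH270.MC.mean_sq H (fun s hs => by
    refine DirichletCharacter.LFunction_ne_zero_of_one_le_re ψ (Or.inl hψ) ?_
    rw [Complex.add_re, Complex.one_re]
    linarith) (by
    simpa using DirichletCharacter.LFunction_apply_one_ne_zero hψ)
  have h1 : SS fun n => Pc nP (al2 ψ) (n : ℝ) - ℓ := sum_sq h
  obtain ⟨L, C', h2⟩ := pc_eq2 ψ
  have h3 : SS fun n : ℕ => Pc nP (al2 ψ) (n : ℝ) - Q ψ n - L :=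
    SS.of_le (summable_pow (C := C')) (N := 1) h2
  refine ⟨ℓ - L, (h1.add (h3.mul (-1))).mono fun n => le_of_eq ?_⟩
  congr 1
  ring

/-- the partial sums over prime powers and the corrected sums over primes -/
theorem sq_close {q : ℕ} [NeZero q] (χ : DirichletCharacter ℂ q) :
    ∃ L : ℂ, SS fun n : ℕ => Pc nP (al χ) (n : ℝ) - U χ n -
      ((if χ ^ 2 = 1 then (1 / 2 : ℝ) else 0) * Real.log (Real.log n) : ℝ) - L := by
  obtain ⟨L, C, h⟩ := pc_eq3 χ
  have h1 : SS fun n : ℕ => Pc nP (al χ) (n : ℝ) - U χ n - (1 / 2 : ℂ) * Q (χ ^ 2) (Nat.sqrt n) - L :=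
    SS.of_le (summable_pow (C := C)) (N := 1) h
  by_cases h2 : χ ^ 2 = 1
  · obtain ⟨M, C', h3⟩ := Q_one (q := q)
    have h4 : SS fun n : ℕ => Q (1 : DirichletCharacter ℂ q) n - ((Real.log (Real.log n) : ℝ) : ℂ) - M :=
      SS.of_le (summable_log (C := C')) (N := 3) h3
    have h5 := h4.transfer
    have h6 : SS fun n : ℕ =>
        ((Real.log (Real.log (Nat.sqrt n)) - Real.log (Real.log n) + Real.log 2 : ℝ) : ℂ) := by
      refine SS.of_le (g := fun n => |Real.log (Real.log (Nat.sqrt n)) - Real.log (Real.log n) +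
        Real.log 2|) ?_ (N := 0) fun n _ => ?_
      · simpa only [sq_abs] using loglog_sqrt
      · rw [Complex.norm_real, Real.norm_eq_abs]
    refine ⟨L + (1 / 2 : ℂ) * M - (1 / 2 : ℂ) * (Real.log 2 : ℝ),
      ((h1.add (h5.mul (1 / 2))).add (h6.mul (1 / 2))).mono fun n => le_of_eq ?_⟩
    congr 1
    rw [if_pos h2, h2]
    push_cast
    ring
  · obtain ⟨M, h3⟩ := Q_ss h2
    refine ⟨L + (1 / 2 : ℂ) * M, (h1.add (h3.transfer.mul (1 / 2))).mono fun n => le_of_eq ?_⟩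
    congr 1
    rw [if_neg h2]
    push_cast
    ring

variable {q : ℕ} [NeZero q]

/-- the weight of a character -/
noncomputable def wt (a b : (ZMod q)ˣ) (χ : DirichletCharacter ℂ q) : ℂ :=
  χ ((a⁻¹ : (ZMod q)ˣ) : ZMod q) - χ ((b⁻¹ : (ZMod q)ˣ) : ZMod q)

/-- the corrected sum of a character -/
noncomputable def V (χ : DirichletCharacter ℂ q) (n : ℕ) : ℂ :=
  U χ n + ((if χ ^ 2 = 1 then (1 / 2 : ℝ) else 0) * Real.log (Real.log n) : ℝ)

/-- the corrected race -/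
noncomputable def D (a b : (ZMod q)ˣ) (n : ℕ) : ℝ :=
  race (a : ZMod q) n - race (b : ZMod q) n -
    ((sqr b : ℝ) - sqr a) / (2 * q.totient) * Real.log (Real.log n)

theorem tot_ne : (q.totient : ℂ) ≠ 0 := by
  have : 0 < q.totient := Nat.totient_pos.2 (NeZero.pos q)
  exact_mod_cast this.ne'

theorem D_eq (a b : (ZMod q)ˣ) (n : ℕ) :
    ((D a b n : ℝ) : ℂ) = (1 / (q.totient : ℂ)) *
      ∑ χ : DirichletCharacter ℂ q, if χ = 1 then 0 else wt a b χ * V χ n := by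
  have h1 := race_eq a b n
  have h2 := sqr_sum a b
  have h3 : ∑ χ : DirichletCharacter ℂ q, (if χ = 1 then 0 else wt a b χ * V χ n) =
      ∑ χ : DirichletCharacter ℂ q, (if χ = 1 then 0 else wt a b χ * U χ n) +
      (∑ χ : DirichletCharacter ℂ q, (if χ = 1 then 0 else wt a b χ * (if χ ^ 2 = 1 then 1 else 0))) *
        ((1 / 2 : ℂ) * (Real.log (Real.log n) : ℝ)) := by
    rw [Finset.sum_mul, ← Finset.sum_add_distrib]
    refine Finset.sum_congr rfl fun χ _ => ?_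
    unfold V
    split_ifs
    · simp
    · push_cast
      ring
    · push_cast
      ring
  rw [h3]
  unfold wt
  rw [← h2, mul_add, ← h1]
  unfold D
  push_cast
  have := tot_ne (q := q)
  field_simp
  ring

theorem V_eq {χ : DirichletCharacter ℂ q} (hχ : χ ≠ 1) (n : ℕ) :
    V χ n = ∑ a : (ZMod q)ˣ, χ (a : ZMod q) * ((D a 1 n : ℝ) : ℂ) := by
  have h1 := U_eq hχ n
  have h2 := sqr_orth hχ
  have h3 : ∑ a : (ZMod q)ˣ, χ (a : ZMod q) * ((D a 1 n : ℝ) : ℂ) =
      ∑ a : (ZMod q)ˣ, χ (a : ZMod q) * ((race (a : ZMod q) n - race (1 : ZMod q) n : ℝ) : ℂ) -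
      (∑ a : (ZMod q)ˣ, χ (a : ZMod q) * ((sqr (1 : (ZMod q)ˣ) : ℂ) - sqr a)) *
        ((Real.log (Real.log n) : ℝ) / (2 * q.totient)) := by
    rw [Finset.sum_mul, ← Finset.sum_sub_distrib]
    refine Finset.sum_congr rfl fun a _ => ?_
    unfold D
    push_cast
    ring
  rw [h3, ← h1, h2]
  unfold V
  have := tot_ne (q := q)
  split_ifs
  · push_cast
    field_simp
    ring
  · push_cast
    ring

/-- the corrected sum is square summable around a constant -/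
theorem V_ss {χ : DirichletCharacter ℂ q} (hχ : χ ≠ 1)
    (hne : ∀ s : ℂ, 1 / 2 < s.re → DirichletCharacter.LFunction χ s ≠ 0)
    (h0 : DirichletCharacter.LFunction χ (1 / 2) ≠ 0) :
    ∃ m : ℂ, SS fun n => V χ n - m := by
  obtain ⟨C, H⟩ := mcc hχ
  obtain ⟨ℓ, -, h⟩ := Pool.Agent.TH270.MC.mean_sq H (fun s hs => by
    refine hne _ ?_
    rw [Complex.add_re]
    norm_num
    exact hs) (by simpa using h0)
  have hℓ : SS fun n => Pc nP (al χ) (n : ℝ) - ℓ := sum_sq h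
  obtain ⟨L, hL⟩ := sq_close χ
  refine ⟨ℓ - L, (hℓ.add (hL.mul (-1))).mono fun n => le_of_eq ?_⟩
  congr 1
  unfold V
  push_cast
  ring

/-- the corrected race is square summable around a constant -/
theorem D_ss
    (h : ∀ χ : DirichletCharacter ℂ q, χ ≠ 1 →
      (∀ s : ℂ, 1 / 2 < s.re → DirichletCharacter.LFunction χ s ≠ 0) ∧
      DirichletCharacter.LFunction χ (1 / 2) ≠ 0) (a b : (ZMod q)ˣ) :
    ∃ c : ℝ, SS fun n => ((D a b n - c : ℝ) : ℂ) := by
  have h1 : ∀ χ : DirichletCharacter ℂ q, ∃ m : ℂ, χ ≠ 1 → SS fun n => V χ n - m := by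
    intro χ
    by_cases hχ : χ = 1
    · exact ⟨0, fun h => absurd hχ h⟩
    · obtain ⟨m, hm⟩ := V_ss hχ (h χ hχ).1 (h χ hχ).2
      exact ⟨m, fun _ => hm⟩
  choose m hm using h1
  set c' : ℂ := (1 / (q.totient : ℂ)) *
      ∑ χ : DirichletCharacter ℂ q, if χ = 1 then 0 else wt a b χ * m χ with hc'
  refine ⟨c'.re, ?_⟩
  have h2 : SS fun n => ∑ χ : DirichletCharacter ℂ q,
      if χ = 1 then 0 else wt a b χ * (V χ n - m χ) := by
    refine SS.sum _ fun χ _ => ?_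
    by_cases hχ : χ = 1
    · simp only [hχ, if_true]
      exact SS.zero
    · simp only [hχ, if_false]
      exact (hm χ hχ).mul _
  refine (h2.mul (1 / (q.totient : ℂ))).mono fun n => ?_
  have h3 : (1 / (q.totient : ℂ)) * ∑ χ : DirichletCharacter ℂ q,
      (if χ = 1 then 0 else wt a b χ * (V χ n - m χ)) = ((D a b n : ℝ) : ℂ) - c' := by
    rw [D_eq, hc', ← mul_sub, ← Finset.sum_sub_distrib]
    congr 1
    refine Finset.sum_congr rfl fun χ _ => ?_
    split_ifs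
    · simp
    · ring
  rw [h3, Complex.norm_real, Real.norm_eq_abs]
  have h4 : D a b n - c'.re = (((D a b n : ℝ) : ℂ) - c').re := by simp
  rw [h4]
  exact Complex.abs_re_le_norm _

/-- bounded means of the races give the Riemann hypothesis -/
theorem rh_of (h : ∀ a : (ZMod q)ˣ, BN fun n => ((D a 1 n : ℝ) : ℂ))
    {χ : DirichletCharacter ℂ q} (hχ : χ ≠ 1) :
    (∀ s : ℂ, 1 / 2 < s.re → DirichletCharacter.LFunction χ s ≠ 0) ∧
      DirichletCharacter.LFunction χ (1 / 2) ≠ 0 := by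
  obtain ⟨C, H⟩ := mcc hχ
  have h1 : BN fun n => V χ n := by
    have h2 : BN fun n => ∑ a : (ZMod q)ˣ, χ (a : ZMod q) * ((D a 1 n : ℝ) : ℂ) :=
      BN.sum _ fun a _ => (h a).mul _
    have h3 : (fun n => V χ n) = fun n => ∑ a : (ZMod q)ˣ, χ (a : ZMod q) * ((D a 1 n : ℝ) : ℂ) :=
      funext fun n => V_eq hχ n
    rw [h3]
    exact h2
  obtain ⟨L, hL⟩ := sq_close χ
  have h4 := BN.of_MZ (MZ.of_summable hL)
  have h4' : BN fun _ : ℕ => L := BN.of_bdd (K := ‖L‖) fun _ => le_rfl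
  have h5 : BN fun n => Pc nP (al χ) (n : ℝ) := by
    have h6 := (h1.add h4).add h4'
    have h7 : (fun n : ℕ => Pc nP (al χ) (n : ℝ)) = fun n : ℕ => V χ n + (Pc nP (al χ) (n : ℝ) - U χ n -
      ((if χ ^ 2 = 1 then (1 / 2 : ℝ) else 0) * Real.log (Real.log n) : ℝ) - L) + L := by
      funext n
      unfold V
      ring
    rw [h7]
    exact h6
  obtain ⟨h8, h9⟩ := rh_of_BN H h5
  refine ⟨fun s hs => ?_, by simpa using h9⟩
  have h10 := h8 (s - 1 / 2) (by
    rw [Complex.sub_re]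
    norm_num
    linarith)
  simpa using h10

/-- **Chebyshev's bias in the logarithmic mean.** -/
theorem main :
    List.TFAE [
      ∀ χ : DirichletCharacter ℂ q, χ ≠ 1 →
        (∀ s : ℂ, 1 / 2 < s.re → DirichletCharacter.LFunction χ s ≠ 0) ∧
        DirichletCharacter.LFunction χ (1 / 2) ≠ 0,
      ∀ a b : (ZMod q)ˣ, ∃ B : ℝ, ∀ᶠ M : ℕ in atTop,
        ∑ n ∈ Finset.Icc 2 M, |D a b n| / n ≤ B * Real.log M,
      ∀ a b : (ZMod q)ˣ, ∃ c : ℝ, Summable fun n : ℕ => (D a b n - c) ^ 2 / n] := by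
  have hbn : ∀ a b : (ZMod q)ˣ, (∃ B : ℝ, ∀ᶠ M : ℕ in atTop,
        ∑ n ∈ Finset.Icc 2 M, |D a b n| / n ≤ B * Real.log M) ↔
        BN fun n => ((D a b n : ℝ) : ℂ) := by
    intro a b
    unfold BN
    simp only [Complex.norm_real, Real.norm_eq_abs]
  have hss : ∀ (a b : (ZMod q)ˣ) (c : ℝ), (Summable fun n : ℕ => (D a b n - c) ^ 2 / n) ↔
        SS fun n => ((D a b n - c : ℝ) : ℂ) := by
    intro a b c
    unfold SS
    simp only [Complex.norm_real, Real.norm_eq_abs, sq_abs]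
  tfae_have 1 → 3 := by
    intro h a b
    obtain ⟨c, hc⟩ := D_ss h a b
    exact ⟨c, (hss a b c).2 hc⟩
  tfae_have 3 → 2 := by
    intro h a b
    obtain ⟨c, hc⟩ := h a b
    rw [hbn]
    have h1 := BN.of_MZ (MZ.of_summable ((hss a b c).1 hc))
    have h2 : BN fun _ : ℕ => (c : ℂ) := BN.of_bdd (K := ‖(c : ℂ)‖) fun _ => le_rfl
    have h3 := h1.add h2
    have h4 : (fun n => ((D a b n : ℝ) : ℂ)) = fun n => ((D a b n - c : ℝ) : ℂ) + (c : ℂ) := by
      funext n
      push_cast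
      ring
    rw [h4]
    exact h3
  tfae_have 2 → 1 := by
    intro h χ hχ
    exact rh_of (fun a => (hbn a 1).1 (h a 1)) hχ
  tfae_finish

end Pool.Agent.TH270.CB
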