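import Pool.Agent.TH270.CB.Defs

/-!
# Logarithmic means of sequences
-/

set_option autoImplicit false

open MeasureTheory Filter Topology Set
open scoped ENNReal
open Pool.Agent.TH270.MC (McC Pc nP CS)
open Pool.Agent.TH942.ES

namespace Pool.Agent.TH270.CB

/-- zero logarithmic mean square -/
def MZ (f : ℕ → ℂ) : Prop :=
  Tendsto (fun M : ℕ => (∑ n ∈ Finset.Icc 2 M, ‖f n‖ ^ 2 / n) / Real.log M) atTop (𝓝 0)

/-- bounded logarithmic mean -/
def BN (f : ℕ → ℂ) : Prop :=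
  ∃ B : ℝ, ∀ᶠ M : ℕ in atTop, ∑ n ∈ Finset.Icc 2 M, ‖f n‖ / n ≤ B * Real.log M

theorem log_tendsto : Tendsto (fun M : ℕ => Real.log (M : ℝ)) atTop atTop :=
  Real.tendsto_log_atTop.comp tendsto_natCast_atTop_atTop

theorem one_le_logN {M : ℕ} (hM : 3 ≤ M) : 1 ≤ Real.log (M : ℝ) := by
  have h3 : (3 : ℝ) ≤ M := by exact_mod_cast hM
  rw [Real.le_log_iff_exp_le (by linarith)]
  exact Real.exp_one_lt_three.le.trans h3

theorem harm_le {M : ℕ} (hM : 1 ≤ M) : ∑ n ∈ Finset.Icc 2 M, (1 : ℝ) / n ≤ Real.log M := by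
  have h1 := harmonic_le_one_add_log M
  have h2 : (harmonic M : ℝ) = 1 + ∑ n ∈ Finset.Icc 2 M, (1 : ℝ) / n := by
    rw [harmonic_eq_sum_Icc]
    push_cast
    rw [← Finset.sum_erase_add _ _ (Finset.left_mem_Icc.2 hM)]
    have h3 : (Finset.Icc 1 M).erase 1 = Finset.Icc 2 M := by
      ext k
      simp only [Finset.mem_erase, Finset.mem_Icc]
      omega
    rw [h3]
    simp only [Nat.cast_one, inv_one, one_div]
    ring
  rw [h2] at h1
  linarith

theorem MZ.of_summable {f : ℕ → ℂ} (h : Summable fun n : ℕ => ‖f n‖ ^ 2 / n) : MZ f := by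
  have h1 : Tendsto (fun M : ℕ => (∑' n : ℕ, ‖f n‖ ^ 2 / n) / Real.log M) atTop (𝓝 0) :=
    log_tendsto.const_div_atTop _
  refine squeeze_zero' ?_ ?_ h1
  · filter_upwards [eventually_ge_atTop 3] with M hM
    have := one_le_logN hM
    positivity
  · filter_upwards [eventually_ge_atTop 3] with M hM
    have := one_le_logN hM
    refine div_le_div_of_nonneg_right ?_ (by linarith)
    exact h.sum_le_tsum _ fun n _ => by positivity

theorem MZ.of_tendsto {f : ℕ → ℂ} (h : Tendsto f atTop (𝓝 0)) : MZ f := by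
  unfold MZ
  rw [Metric.tendsto_atTop]
  intro ε hε
  have h1 : Tendsto (fun n => ‖f n‖ ^ 2) atTop (𝓝 0) := by
    have := h.norm.pow 2
    simpa using this
  obtain ⟨n₀, hn₀⟩ := eventually_atTop.1 (h1.eventually_lt_const (show (0 : ℝ) < ε / 2 by positivity))
  set K : ℝ := ∑ n ∈ Finset.range n₀, ‖f n‖ ^ 2 / n with hK
  have hK0 : 0 ≤ K := Finset.sum_nonneg fun n _ => by positivity
  obtain ⟨M₀, hM₀⟩ := eventually_atTop.1
    ((log_tendsto.const_div_atTop K).eventually_lt_const (show (0 : ℝ) < ε / 2 by positivity))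
  refine ⟨max 3 M₀, fun M hM => ?_⟩
  have hM3 : 3 ≤ M := (le_max_left _ _).trans hM
  have hl := one_le_logN hM3
  have h2 := hM₀ M ((le_max_right _ _).trans hM)
  rw [div_lt_iff₀ (by linarith)] at h2
  rw [Real.dist_eq, sub_zero, abs_of_nonneg (by positivity), div_lt_iff₀ (by linarith)]
  have h3 : ∑ n ∈ Finset.Icc 2 M, ‖f n‖ ^ 2 / n ≤ K + ε / 2 * ∑ n ∈ Finset.Icc 2 M, (1 : ℝ) / n := by
    have h4 : ∀ n ∈ Finset.Icc 2 M, ‖f n‖ ^ 2 / n ≤
        (if n < n₀ then ‖f n‖ ^ 2 / n else 0) + ε / 2 * (1 / n) := by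
      intro n hn
      have hn0 : (0 : ℝ) ≤ 1 / (n : ℝ) := by positivity
      split_ifs with h5
      · have : 0 ≤ ε / 2 * (1 / (n : ℝ)) := by positivity
        linarith
      · have h6 := hn₀ n (not_lt.1 h5)
        rw [zero_add, div_eq_mul_one_div]
        exact mul_le_mul_of_nonneg_right h6.le hn0
    refine (Finset.sum_le_sum h4).trans ?_
    rw [Finset.sum_add_distrib, ← Finset.mul_sum]
    refine add_le_add ?_ le_rfl
    rw [← Finset.sum_filter, hK]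
    refine Finset.sum_le_sum_of_subset_of_nonneg (fun n hn => ?_) fun n _ _ => by positivity
    rw [Finset.mem_range]
    exact (Finset.mem_filter.1 hn).2
  have h5 := harm_le (show 1 ≤ M by omega)
  have h6 : ε / 2 * ∑ n ∈ Finset.Icc 2 M, (1 : ℝ) / n ≤ ε / 2 * Real.log M :=
    mul_le_mul_of_nonneg_left h5 (by positivity)
  linarith

theorem MZ.add {f g : ℕ → ℂ} (hf : MZ f) (hg : MZ g) : MZ fun n => f n + g n := by
  have h := (hf.const_mul 2).add (hg.const_mul 2)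
  rw [mul_zero, add_zero] at h
  refine squeeze_zero' ?_ ?_ h
  · filter_upwards [eventually_ge_atTop 3] with M hM
    have := one_le_logN hM
    positivity
  · filter_upwards [eventually_ge_atTop 3] with M hM
    have hl := one_le_logN hM
    rw [← mul_div_assoc, ← mul_div_assoc, ← add_div]
    refine div_le_div_of_nonneg_right ?_ (by linarith)
    rw [Finset.mul_sum, Finset.mul_sum, ← Finset.sum_add_distrib]
    refine Finset.sum_le_sum fun n _ => ?_
    have h1 : ‖f n + g n‖ ^ 2 ≤ 2 * ‖f n‖ ^ 2 + 2 * ‖g n‖ ^ 2 := by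
      have h2 := norm_add_le (f n) (g n)
      have h3 := pow_le_pow_left₀ (norm_nonneg _) h2 2
      nlinarith [sq_nonneg (‖f n‖ - ‖g n‖)]
    calc ‖f n + g n‖ ^ 2 / n ≤ (2 * ‖f n‖ ^ 2 + 2 * ‖g n‖ ^ 2) / n :=
          div_le_div_of_nonneg_right h1 (Nat.cast_nonneg n)
      _ = _ := by ring

theorem MZ.mul {f : ℕ → ℂ} (hf : MZ f) (c : ℂ) : MZ fun n => c * f n := by
  have h := hf.const_mul (‖c‖ ^ 2)
  rw [mul_zero] at h
  refine h.congr fun M => ?_
  rw [← mul_div_assoc, Finset.mul_sum]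
  congr 1
  refine Finset.sum_congr rfl fun n _ => ?_
  rw [norm_mul, mul_pow, mul_div_assoc]

theorem MZ.zero : MZ fun _ => 0 := MZ.of_tendsto tendsto_const_nhds

theorem MZ.sum {ι : Type} (s : Finset ι) {f : ι → ℕ → ℂ} (h : ∀ i ∈ s, MZ (f i)) :
    MZ fun n => ∑ i ∈ s, f i n := by
  classical
  induction s using Finset.induction_on with
  | empty => simpa using MZ.zero
  | insert a s ha ih =>
    simp only [Finset.sum_insert ha]
    exact (h a (Finset.mem_insert_self _ _)).add (ih fun i hi => h i (Finset.mem_insert_of_mem hi))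

theorem MZ.mono {f g : ℕ → ℂ} (hf : MZ f) (h : ∀ n, ‖g n‖ ≤ ‖f n‖) : MZ g := by
  refine squeeze_zero' ?_ ?_ hf
  · filter_upwards [eventually_ge_atTop 3] with M hM
    have := one_le_logN hM
    positivity
  · filter_upwards [eventually_ge_atTop 3] with M hM
    have hl := one_le_logN hM
    refine div_le_div_of_nonneg_right ?_ (by linarith)
    refine Finset.sum_le_sum fun n _ => ?_
    exact div_le_div_of_nonneg_right (pow_le_pow_left₀ (norm_nonneg _) (h n) 2) (Nat.cast_nonneg n)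

theorem BN.add {f g : ℕ → ℂ} (hf : BN f) (hg : BN g) : BN fun n => f n + g n := by
  obtain ⟨B, hB⟩ := hf
  obtain ⟨B', hB'⟩ := hg
  refine ⟨B + B', ?_⟩
  filter_upwards [hB, hB'] with M h1 h2
  have h3 : ∑ n ∈ Finset.Icc 2 M, ‖f n + g n‖ / n ≤
      ∑ n ∈ Finset.Icc 2 M, ‖f n‖ / n + ∑ n ∈ Finset.Icc 2 M, ‖g n‖ / n := by
    rw [← Finset.sum_add_distrib]
    refine Finset.sum_le_sum fun n _ => ?_
    rw [← add_div]
    exact div_le_div_of_nonneg_right (norm_add_le _ _) (Nat.cast_nonneg n)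
  linarith

theorem BN.mul {f : ℕ → ℂ} (hf : BN f) (c : ℂ) : BN fun n => c * f n := by
  obtain ⟨B, hB⟩ := hf
  refine ⟨‖c‖ * B, ?_⟩
  filter_upwards [hB] with M h1
  have h2 : ∑ n ∈ Finset.Icc 2 M, ‖c * f n‖ / n = ‖c‖ * ∑ n ∈ Finset.Icc 2 M, ‖f n‖ / n := by
    rw [Finset.mul_sum]
    refine Finset.sum_congr rfl fun n _ => ?_
    rw [norm_mul, mul_div_assoc]
  rw [h2]
  calc _ ≤ ‖c‖ * (B * Real.log M) := mul_le_mul_of_nonneg_left h1 (norm_nonneg c)
    _ = _ := by ring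

theorem BN.of_bdd {f : ℕ → ℂ} {K : ℝ} (h : ∀ n, ‖f n‖ ≤ K) : BN f := by
  have hK : 0 ≤ K := (norm_nonneg _).trans (h 0)
  refine ⟨K, ?_⟩
  filter_upwards [eventually_ge_atTop 1] with M hM
  have h1 : ∑ n ∈ Finset.Icc 2 M, ‖f n‖ / n ≤ K * ∑ n ∈ Finset.Icc 2 M, (1 : ℝ) / n := by
    rw [Finset.mul_sum]
    refine Finset.sum_le_sum fun n _ => ?_
    rw [mul_one_div]
    exact div_le_div_of_nonneg_right (h n) (Nat.cast_nonneg n)
  exact h1.trans (mul_le_mul_of_nonneg_left (harm_le hM) hK)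

theorem BN.sum {ι : Type} (s : Finset ι) {f : ι → ℕ → ℂ} (h : ∀ i ∈ s, BN (f i)) :
    BN fun n => ∑ i ∈ s, f i n := by
  classical
  induction s using Finset.induction_on with
  | empty => simpa using BN.of_bdd (f := fun _ => (0 : ℂ)) (K := 0) (by simp)
  | insert a s ha ih =>
    simp only [Finset.sum_insert ha]
    exact (h a (Finset.mem_insert_self _ _)).add (ih fun i hi => h i (Finset.mem_insert_of_mem hi))

theorem BN.of_MZ {f : ℕ → ℂ} (hf : MZ f) : BN f := by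
  refine ⟨2, ?_⟩
  filter_upwards [hf.eventually_lt_const one_pos, eventually_ge_atTop 3] with M h1 hM
  have hl := one_le_logN hM
  rw [div_lt_iff₀ (by linarith), one_mul] at h1
  have h2 : ∑ n ∈ Finset.Icc 2 M, ‖f n‖ / n ≤
      ∑ n ∈ Finset.Icc 2 M, (1 : ℝ) / n + ∑ n ∈ Finset.Icc 2 M, ‖f n‖ ^ 2 / n := by
    rw [← Finset.sum_add_distrib]
    refine Finset.sum_le_sum fun n _ => ?_
    rw [← add_div]
    refine div_le_div_of_nonneg_right ?_ (Nat.cast_nonneg n)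
    nlinarith [sq_nonneg (‖f n‖ - 1), sq_nonneg ‖f n‖]
  have h3 := harm_le (show 1 ≤ M by omega)
  linarith

section

variable {X : Type} {d : ℕ} {N : X → ℕ} {α : X → Fin d → ℂ} {Ψ : ℂ → ℂ} {κ : ℕ} {η C : ℝ}

/-- square summability of the partial sums -/
theorem sum_sq {ℓ : ℂ} (h : ∫⁻ u in Ioi (0 : ℝ), ‖Pc N α (Real.exp u) - ℓ‖ₑ ^ 2 < ⊤) :
    Summable fun n : ℕ => ‖Pc N α (n : ℝ) - ℓ‖ ^ 2 / n := by
  have hmono : Monotone fun n : ℕ => Real.log (n : ℝ) := by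
    intro a b hab
    rcases Nat.eq_zero_or_pos a with h0 | h0
    · subst h0
      simp only [Nat.cast_zero, Real.log_zero]
      exact Real.log_natCast_nonneg b
    · exact Real.log_le_log (by exact_mod_cast h0) (by exact_mod_cast hab)
  have hd := hmono.pairwise_disjoint_on_Ioo_succ
  set A : ℕ → Set ℝ := fun n : ℕ => Ioo (Real.log (n : ℝ)) (Real.log ((Order.succ n : ℕ) : ℝ)) with hAdef
  have hA : ∀ n, MeasurableSet (A n) := fun n => measurableSet_Ioo
  set μ := volume.restrict (Ioi (0 : ℝ))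
  have h1 : ∑' n, ∫⁻ x in A n, ‖Pc N α (Real.exp x) - ℓ‖ₑ ^ 2 ∂μ ≠ ⊤ := by
    rw [← lintegral_iUnion hA hd]
    exact (lt_of_le_of_lt (setLIntegral_le_lintegral _ _) h).ne
  have h2 := ENNReal.summable_toReal h1
  have h3 : ∀ n, ∫⁻ x in A n, ‖Pc N α (Real.exp x) - ℓ‖ₑ ^ 2 ∂μ ≠ ⊤ := fun n =>
    (lt_of_le_of_lt (setLIntegral_le_lintegral _ _) h).ne
  refine Summable.of_nonneg_of_le (fun n => by positivity) (fun n => ?_) (h2.mul_left 2)
  rcases Nat.eq_zero_or_pos n with h0 | hn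
  · subst h0
    simp only [Nat.cast_zero, div_zero]
    positivity
  have hn0 : (0 : ℝ) < n := by exact_mod_cast hn
  have hl0 : 0 ≤ Real.log (n : ℝ) := Real.log_natCast_nonneg n
  have hsucc : ((Order.succ n : ℕ) : ℝ) = (n : ℝ) + 1 := by
    rw [Nat.succ_eq_succ]
    push_cast
    ring
  have hkey : ENNReal.ofReal (‖Pc N α (n : ℝ) - ℓ‖ ^ 2 / (2 * n)) ≤
      ∫⁻ x in A n, ‖Pc N α (Real.exp x) - ℓ‖ₑ ^ 2 ∂μ := by
    rw [hAdef]
    simp only
    rw [Measure.restrict_restrict measurableSet_Ioo, hsucc]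
    have hI : Ioo (Real.log (n : ℝ)) (Real.log ((n : ℝ) + 1)) ∩ Ioi 0 =
        Ioo (Real.log (n : ℝ)) (Real.log ((n : ℝ) + 1)) :=
      inter_eq_left.2 fun u hu => lt_of_le_of_lt hl0 hu.1
    rw [hI]
    have h4 : ∀ u ∈ Ioo (Real.log (n : ℝ)) (Real.log ((n : ℝ) + 1)),
        ENNReal.ofReal (‖Pc N α (n : ℝ) - ℓ‖ ^ 2) ≤ ‖Pc N α (Real.exp u) - ℓ‖ₑ ^ 2 := by
      intro u hu
      have h2 : (n : ℝ) < Real.exp u := (Real.log_lt_iff_lt_exp hn0).1 hu.1
      have h3 : Real.exp u < (n : ℝ) + 1 := (Real.lt_log_iff_exp_lt (by linarith)).1 hu.2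
      have h4 : ⌊Real.exp u⌋₊ = n := (Nat.floor_eq_iff (Real.exp_pos u).le).2 ⟨h2.le, h3⟩
      rw [Pool.Agent.TH270.MC.pc_floor N α (Real.exp_pos u).le, h4, ← ofReal_norm,
        ← ENNReal.ofReal_pow (norm_nonneg _)]
    refine le_trans ?_ (setLIntegral_mono_ae' measurableSet_Ioo (Eventually.of_forall h4))
    rw [setLIntegral_const, Real.volume_Ioo, ← ENNReal.ofReal_mul (by positivity)]
    apply ENNReal.ofReal_le_ofReal
    have h5 : 1 / (2 * (n : ℝ)) ≤ Real.log ((n : ℝ) + 1) - Real.log n := by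
      rw [← Real.log_div (by linarith) hn0.ne']
      have h6 := Real.one_sub_inv_le_log_of_pos (x := ((n : ℝ) + 1) / n) (by positivity)
      have h7 : 1 - (((n : ℝ) + 1) / n)⁻¹ = 1 / ((n : ℝ) + 1) := by
        field_simp
        ring
      rw [h7] at h6
      refine le_trans ?_ h6
      have hn1 : (1 : ℝ) ≤ n := by exact_mod_cast hn
      exact one_div_le_one_div_of_le (by linarith) (by linarith)
    calc ‖Pc N α (n : ℝ) - ℓ‖ ^ 2 / (2 * n) = ‖Pc N α (n : ℝ) - ℓ‖ ^ 2 * (1 / (2 * (n : ℝ))) := by ring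
      _ ≤ _ := mul_le_mul_of_nonneg_left h5 (by positivity)
  have h6 := ENNReal.toReal_mono (h3 n) hkey
  rw [ENNReal.toReal_ofReal (by positivity)] at h6
  calc ‖Pc N α (n : ℝ) - ℓ‖ ^ 2 / n = 2 * (‖Pc N α (n : ℝ) - ℓ‖ ^ 2 / (2 * n)) := by
        field_simp
    _ ≤ _ := mul_le_mul_of_nonneg_left h6 (by norm_num)

/-- the mean square of the partial sums under the Riemann hypothesis -/
theorem mz_of (H : McC N α Ψ κ η C) (hne : ∀ s : ℂ, 0 < s.re → Ψ s ≠ 0) (h0 : Ψ 0 ≠ 0) :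
    ∃ ℓ : ℂ, MZ fun n => Pc N α (n : ℝ) - ℓ := by
  obtain ⟨ℓ, -, h⟩ := Pool.Agent.TH270.MC.mean_sq H hne h0
  exact ⟨ℓ, MZ.of_summable (sum_sq h)⟩

/-- bounded means give the Riemann hypothesis and the non-vanishing -/
theorem rh_of_BN (H : McC N α Ψ κ η C) (h : BN fun n => Pc N α (n : ℝ)) :
    (∀ s : ℂ, 0 < s.re → Ψ s ≠ 0) ∧ Ψ 0 ≠ 0 := by
  rw [Pool.Agent.TH270.MC.bdd_iff H]
  obtain ⟨B, hB⟩ := h
  refine ⟨B + |(Pc N α ((1 : ℕ) : ℝ)).re|, ?_⟩
  filter_upwards [hB, eventually_ge_atTop 3] with M h1 hM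
  have hl := one_le_logN hM
  have h3 : (Finset.Icc 1 M).erase 1 = Finset.Icc 2 M := by
    ext k
    simp only [Finset.mem_erase, Finset.mem_Icc]
    omega
  rw [← Finset.sum_erase_add _ _ (Finset.left_mem_Icc.2 (show 1 ≤ M by omega)), h3]
  have h4 : ∑ n ∈ Finset.Icc 2 M, |(Pc N α (n : ℝ)).re| / n ≤
      ∑ n ∈ Finset.Icc 2 M, ‖Pc N α (n : ℝ)‖ / n := by
    refine Finset.sum_le_sum fun n _ => ?_
    exact div_le_div_of_nonneg_right (Complex.abs_re_le_norm _) (Nat.cast_nonneg n)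
  have h5 : |(Pc N α ((1 : ℕ) : ℝ)).re| / ((1 : ℕ) : ℝ) ≤ |(Pc N α ((1 : ℕ) : ℝ)).re| * Real.log M := by
    rw [Nat.cast_one, div_one]
    exact le_mul_of_one_le_right (abs_nonneg _) hl
  rw [add_mul]
  linarith

end

end Pool.Agent.TH270.CB
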