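import Pool.Agent.TH270.CB.Defs2

/-!
Prime squares and higher powers for the sums of `ψ(p)/p`.
-/

set_option autoImplicit false

open MeasureTheory Filter Topology Set
open Pool.Agent.TH270.MC (Pc nP)
open scoped Classical

namespace Pool.Agent.TH270.CB

namespace P2

variable {q : ℕ}

theorem vpos (v : Nat.Primes) : (0 : ℝ) < ((v : ℕ) : ℝ) := by exact_mod_cast v.2.pos

theorem v2 (v : Nat.Primes) : (2 : ℝ) ≤ ((v : ℕ) : ℝ) := by exact_mod_cast v.2.two_le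

theorem cC_eq (ψ : DirichletCharacter ℂ q) (v : Nat.Primes) (k : ℕ) :
    Pool.Agent.TH270.MC.cC nP (al2 ψ) (v, k) =
      (ψ (((v : ℕ) : ZMod q)) / ((v : ℕ) : ℂ)) ^ (k + 1) / ((k : ℂ) + 1) := by
  unfold Pool.Agent.TH270.MC.cC Pool.Agent.TH942.ES.zv al2
  simp only [Finset.univ_unique, Finset.sum_const, Finset.card_singleton, one_smul]
  congr 2
  have e : ((√(((nP v : ℕ)) : ℝ) : ℝ) : ℂ) = ((√((v : ℕ) : ℝ) : ℝ) : ℂ) := rfl
  rw [e, div_div, ← Complex.ofReal_mul, Real.mul_self_sqrt (vpos v).le]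
  norm_cast

theorem cC_le [NeZero q] (ψ : DirichletCharacter ℂ q) (v : Nat.Primes) (k : ℕ) :
    ‖Pool.Agent.TH270.MC.cC nP (al2 ψ) (v, k)‖ ≤ (1 / ((v : ℕ) : ℝ)) ^ (k + 1) := by
  rw [cC_eq, norm_div, norm_pow, norm_div]
  have h0 : ‖((k : ℂ) + 1)‖ = (k : ℝ) + 1 := by
    have : ((k : ℂ) + 1) = (((k : ℝ) + 1 : ℝ) : ℂ) := by push_cast; rfl
    rw [this, Complex.norm_real, Real.norm_eq_abs, abs_of_pos (by positivity)]
  have h1 : ‖(((v : ℕ) : ℂ))‖ = ((v : ℕ) : ℝ) := by simp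
  rw [h0, h1]
  have h2 : ‖ψ (((v : ℕ) : ZMod q))‖ ≤ 1 := DirichletCharacter.norm_le_one ψ _
  have h3 : (‖ψ (((v : ℕ) : ZMod q))‖ / ((v : ℕ) : ℝ)) ^ (k + 1) ≤
      (1 / ((v : ℕ) : ℝ)) ^ (k + 1) :=
    pow_le_pow_left₀ (by positivity) (div_le_div_of_nonneg_right h2 (vpos v).le) _
  refine (div_le_self (by positivity) ?_).trans h3
  have : (0 : ℝ) ≤ k := Nat.cast_nonneg _
  linarith

/-- the majorant -/
noncomputable def G (p : Nat.Primes × ℕ) : ℝ := ((p.1 : ℕ) : ℝ) ^ (-(11 / 6) : ℝ) * (3 / 5) ^ p.2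

theorem G_nonneg (p : Nat.Primes × ℕ) : 0 ≤ G p := by unfold G; positivity

theorem G_summable : Summable G := by
  have h1 : Summable fun v : Nat.Primes => ((v : ℕ) : ℝ) ^ (-(11 / 6) : ℝ) :=
    (Nat.Primes.summable_rpow).2 (by norm_num)
  have h2 : Summable fun k : ℕ => ((3 / 5 : ℝ)) ^ k :=
    summable_geometric_of_lt_one (by norm_num) (by norm_num)
  exact h1.mul_of_nonneg h2 (fun v => by positivity) (fun k => by positivity)

theorem r_le (v : Nat.Primes) : ((v : ℕ) : ℝ) ^ (-(11 / 12) : ℝ) ≤ 3 / 5 := by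
  have h1 : ((v : ℕ) : ℝ) ^ (-(11 / 12) : ℝ) ≤ (2 : ℝ) ^ (-(11 / 12) : ℝ) :=
    Real.rpow_le_rpow_of_nonpos (by norm_num) (v2 v) (by norm_num)
  have h2 : ((2 : ℝ) ^ (-(11 / 12) : ℝ)) ^ 12 ≤ (3 / 5 : ℝ) ^ 12 := by
    rw [← Real.rpow_natCast, ← Real.rpow_mul (by norm_num)]
    have : (-(11 / 12) : ℝ) * ((12 : ℕ) : ℝ) = ((-11 : ℤ) : ℝ) := by push_cast; norm_num
    rw [this, Real.rpow_intCast]
    norm_num
  exact h1.trans (le_of_pow_le_pow_left₀ (by norm_num) (by norm_num) h2)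

/-- the terms with exponent at least two -/
noncomputable def hh (ψ : DirichletCharacter ℂ q) (p : Nat.Primes × ℕ) : ℂ :=
  Pool.Agent.TH270.MC.cC nP (al2 ψ) (p.1, p.2 + 1)

theorem hh_le [NeZero q] (ψ : DirichletCharacter ℂ q) (p : Nat.Primes × ℕ) :
    ‖hh ψ p‖ ≤ (((p.1 : ℕ) : ℝ) ^ (p.2 + 2)) ^ (-(1 / 12) : ℝ) * G p := by
  obtain ⟨v, k⟩ := p
  have hv := vpos v
  refine (cC_le ψ v (k + 1)).trans ?_
  have e1 : 1 / ((v : ℕ) : ℝ) = ((v : ℕ) : ℝ) ^ (-(1 / 12) : ℝ) * ((v : ℕ) : ℝ) ^ (-(11 / 12) : ℝ) := by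
    rw [← Real.rpow_add hv, one_div]
    have : (-(1 / 12) : ℝ) + (-(11 / 12) : ℝ) = -1 := by norm_num
    rw [this, Real.rpow_neg_one]
  have e2 : (((v : ℕ) : ℝ) ^ (k + 2)) ^ (-(1 / 12) : ℝ) = (((v : ℕ) : ℝ) ^ (-(1 / 12) : ℝ)) ^ (k + 2) := by
    rw [← Real.rpow_natCast, ← Real.rpow_natCast, ← Real.rpow_mul hv.le, ← Real.rpow_mul hv.le,
      mul_comm]
  have e3 : ((v : ℕ) : ℝ) ^ (-(11 / 6) : ℝ) = (((v : ℕ) : ℝ) ^ (-(11 / 12) : ℝ)) ^ 2 := by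
    rw [← Real.rpow_natCast, ← Real.rpow_mul hv.le]
    congr 1
    norm_num
  have e4 : k + 1 + 1 = k + 2 := rfl
  simp only [G]
  rw [e4, e1, mul_pow, e2, e3, add_comm k 2, pow_add (((v : ℕ) : ℝ) ^ (-(11 / 12) : ℝ)) 2 k]
  have h0 : (0 : ℝ) ≤ ((v : ℕ) : ℝ) ^ (-(11 / 12) : ℝ) := by positivity
  have h5 := pow_le_pow_left₀ h0 (r_le v) k
  gcongr

theorem one_le_pw (v : Nat.Primes) (k : ℕ) : (1 : ℝ) ≤ ((v : ℕ) : ℝ) ^ k :=
  one_le_pow₀ (by linarith [v2 v])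

theorem hh_le' [NeZero q] (ψ : DirichletCharacter ℂ q) (p : Nat.Primes × ℕ) :
    ‖hh ψ p‖ ≤ G p := by
  refine (hh_le ψ p).trans ?_
  have h1 : (((p.1 : ℕ) : ℝ) ^ (p.2 + 2)) ^ (-(1 / 12) : ℝ) ≤ 1 :=
    Real.rpow_le_one_of_one_le_of_nonpos (one_le_pw p.1 _) (by norm_num)
  calc _ ≤ 1 * G p := mul_le_mul_of_nonneg_right h1 (G_nonneg p)
    _ = G p := one_mul _

/-- the primes up to `n` -/
noncomputable def PS (n : ℕ) : Finset Nat.Primes :=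
  ((Set.finite_le_nat n).preimage (f := fun v : Nat.Primes => (v : ℕ))
    (Subtype.val_injective.injOn)).toFinset

theorem mem_PS {n : ℕ} {v : Nat.Primes} : v ∈ PS n ↔ (v : ℕ) ≤ n := by
  unfold PS; simp

theorem Q_eq (ψ : DirichletCharacter ℂ q) (n : ℕ) :
    Q ψ n = ∑ v ∈ PS n, ψ (((v : ℕ) : ZMod q)) / ((v : ℕ) : ℂ) := by
  unfold Q
  symm
  refine Finset.sum_bij (fun v _ => (v : ℕ)) ?_ ?_ ?_ ?_
  · intro v hv
    rw [Finset.mem_filter, Finset.mem_range]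
    exact ⟨Nat.lt_succ_of_le (mem_PS.1 hv), v.2⟩
  · intro v _ w _ h
    exact Subtype.ext h
  · intro k hk
    rw [Finset.mem_filter, Finset.mem_range] at hk
    exact ⟨⟨k, hk.2⟩, mem_PS.2 (Nat.le_of_lt_succ hk.1), rfl⟩
  · intro v _
    rfl

theorem Pc_eq (ψ : DirichletCharacter ℂ q) (n : ℕ) (hn : 1 ≤ n) :
    Pc nP (al2 ψ) (n : ℝ) = Q ψ n +
      ∑' p : Nat.Primes × ℕ, if ((p.1 : ℕ) : ℝ) ^ (p.2 + 2) ≤ (n : ℝ) then hh ψ p else 0 := by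
  obtain ⟨m, rfl⟩ : ∃ m, n = m + 1 := ⟨n - 1, by omega⟩
  set Y : ℝ := ((m + 1 : ℕ) : ℝ) with hY
  have hb : ∀ (v : Nat.Primes) (k : ℕ), ((v : ℕ) : ℝ) ^ (k + 1) ≤ Y →
      (v : ℕ) ≤ m + 1 ∧ k < m + 1 := by
    intro v k h
    have h0 : ((v : ℕ) : ℝ) ^ (k + 1) ≤ ((m + 1 : ℕ) : ℝ) := h
    have h1 : (v : ℕ) ^ (k + 1) ≤ m + 1 := by exact_mod_cast h0
    have h2 : (v : ℕ) ≤ (v : ℕ) ^ (k + 1) := Nat.le_self_pow (by omega) _
    have h3 : k + 1 < (v : ℕ) ^ (k + 1) := Nat.lt_pow_self v.2.one_lt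
    omega
  have h1 : Pc nP (al2 ψ) Y = ∑ p ∈ PS (m + 1) ×ˢ Finset.range (m + 1),
      if ((p.1 : ℕ) : ℝ) ^ (p.2 + 1) ≤ Y then Pool.Agent.TH270.MC.cC nP (al2 ψ) p else 0 := by
    unfold Pool.Agent.TH270.MC.Pc
    have e : ∀ p : Nat.Primes × ℕ, (∑ᶠ (_ : ((nP p.1 : ℕ) : ℝ) ^ (p.2 + 1) ≤ Y),
        Pool.Agent.TH270.MC.cC nP (al2 ψ) p) =
        if ((p.1 : ℕ) : ℝ) ^ (p.2 + 1) ≤ Y then Pool.Agent.TH270.MC.cC nP (al2 ψ) p else 0 := by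
      intro p
      rw [finsum_eq_if]
      rfl
    rw [finsum_congr e]
    refine finsum_eq_sum_of_support_subset _ fun p hp => ?_
    rw [Function.mem_support] at hp
    have h2 : ((p.1 : ℕ) : ℝ) ^ (p.2 + 1) ≤ Y := by
      by_contra h3
      exact hp (if_neg h3)
    rw [Finset.mem_coe, Finset.mem_product, mem_PS, Finset.mem_range]
    exact hb _ _ h2
  rw [h1, Finset.sum_product]
  simp only [Finset.sum_range_succ']
  rw [Finset.sum_add_distrib, add_comm, Q_eq]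
  congr 1
  · refine Finset.sum_congr rfl fun v hv => ?_
    have h2 : ((v : ℕ) : ℝ) ^ (0 + 1) ≤ Y := by
      rw [zero_add, pow_one, hY]
      exact_mod_cast mem_PS.1 hv
    rw [if_pos h2, cC_eq]
    simp
  · rw [tsum_eq_sum (s := PS (m + 1) ×ˢ Finset.range m), Finset.sum_product]
    · rfl
    · intro p hp
      rw [if_neg]
      intro h2
      apply hp
      have h3 := hb p.1 (p.2 + 1) h2
      rw [Finset.mem_product, mem_PS, Finset.mem_range]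
      exact ⟨h3.1, by omega⟩

end P2

open P2 in
theorem pc_eq2 {q : ℕ} [NeZero q] (ψ : DirichletCharacter ℂ q) :
    ∃ (L : ℂ) (C : ℝ), ∀ n : ℕ, 1 ≤ n →
      ‖Pc nP (al2 ψ) (n : ℝ) - Q ψ n - L‖ ≤ C * (n : ℝ) ^ (-(1 / 12) : ℝ) := by
  refine ⟨∑' p, hh ψ p, ∑' p, G p, fun n hn => ?_⟩
  have hs : Summable (hh ψ) := Summable.of_norm_bounded G_summable (hh_le' ψ)
  have hn0 : (0 : ℝ) < n := by exact_mod_cast hn
  have hs1 : Summable fun p : Nat.Primes × ℕ =>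
      if ((p.1 : ℕ) : ℝ) ^ (p.2 + 2) ≤ (n : ℝ) then hh ψ p else 0 := by
    refine Summable.of_norm_bounded G_summable fun p => ?_
    split_ifs
    · exact hh_le' ψ p
    · rw [norm_zero]; exact G_nonneg p
  rw [Pc_eq ψ n hn, add_sub_cancel_left, ← hs1.tsum_sub hs, mul_comm, ← tsum_mul_left]
  refine tsum_of_norm_bounded (G_summable.mul_left _).hasSum fun p => ?_
  by_cases h : ((p.1 : ℕ) : ℝ) ^ (p.2 + 2) ≤ (n : ℝ)
  · rw [if_pos h, sub_self, norm_zero]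
    exact mul_nonneg (by positivity) (G_nonneg p)
  · rw [if_neg h, zero_sub, norm_neg]
    refine (hh_le ψ p).trans (mul_le_mul_of_nonneg_right ?_ (G_nonneg p))
    exact Real.rpow_le_rpow_of_nonpos hn0 (not_le.1 h).le (by norm_num)

end Pool.Agent.TH270.CB
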