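import Pool.Agent.TH270.CB.Defs2
import Pool.Agent.TH270.CB.Close

/-!
# The partial Euler product at the centre: prime cubes and higher powers
-/

set_option autoImplicit false
open MeasureTheory Filter Topology Set
open Pool.Agent.TH270.MC (McC Pc nP)
open scoped Classical
namespace Pool.Agent.TH270.CB

namespace P3

variable {q : ℕ}

lemma rn_norm (χ : DirichletCharacter ℂ q) (n : ℕ) :
    ‖CL.rn χ n‖ ≤ 4 * (1 / (n : ℝ) ^ (3 / 2 : ℝ)) := by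
  unfold CL.rn
  split_ifs with hn
  · have h2 : (2 : ℝ) ≤ n := by exact_mod_cast hn.two_le
    have hn0 : (0 : ℝ) < n := by linarith
    have hsq : (7 / 5 : ℝ) ≤ √(n : ℝ) := by
      rw [Real.le_sqrt' (by norm_num)]
      linarith
    have hz := CL.zn_norm χ n
    have hz' : ‖CL.zn χ n‖ ≤ 5 / 7 := by
      refine hz.trans ?_
      rw [div_le_iff₀ (by linarith)]
      linarith
    have h3 : ‖-CL.zn χ n‖ < 1 := by rw [norm_neg]; linarith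
    have h4 := Complex.norm_log_sub_logTaylor_le 2 h3
    rw [norm_neg] at h4
    have e1 : Complex.logTaylor (2 + 1) (-CL.zn χ n) = -CL.zn χ n - CL.zn χ n ^ 2 / 2 := by
      rw [Complex.logTaylor_succ, Complex.logTaylor_succ, Complex.logTaylor_succ,
        Complex.logTaylor_zero]
      simp
      ring
    have e2 : Complex.log (1 - CL.zn χ n) + CL.zn χ n + CL.zn χ n ^ 2 / 2 =
        Complex.log (1 + -CL.zn χ n) - Complex.logTaylor (2 + 1) (-CL.zn χ n) := by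
      rw [e1, ← sub_eq_add_neg]
      ring
    rw [e2]
    refine h4.trans ?_
    have h5 : (1 - ‖CL.zn χ n‖)⁻¹ ≤ 4 := by
      rw [inv_le_comm₀ (by linarith) (by norm_num)]
      linarith
    have h6 : ‖CL.zn χ n‖ ^ (2 + 1) ≤ 1 / (n : ℝ) ^ (3 / 2 : ℝ) := by
      refine (pow_le_pow_left₀ (norm_nonneg _) hz _).trans (le_of_eq ?_)
      rw [div_pow, one_pow, Real.sqrt_eq_rpow, ← Real.rpow_natCast, ← Real.rpow_mul hn0.le]
      norm_num
    have h7 : (0 : ℝ) ≤ ‖CL.zn χ n‖ ^ (2 + 1) := by positivity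
    have h8 : (0 : ℝ) < (1 - ‖CL.zn χ n‖)⁻¹ := inv_pos.2 (by linarith)
    have h9 : ‖CL.zn χ n‖ ^ (2 + 1) * (1 - ‖CL.zn χ n‖)⁻¹ ≤ 4 * (1 / (n : ℝ) ^ (3 / 2 : ℝ)) := by
      rw [mul_comm]
      exact mul_le_mul h5 h6 h7 (by norm_num)
    refine le_trans ?_ h9
    refine div_le_self (by positivity) ?_
    norm_num
  · rw [norm_zero]
    positivity

/-- the tail of the third order part -/
lemma tail (χ : DirichletCharacter ℂ q) {n : ℕ} (hn : 1 ≤ n) :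
    ‖∑' k, CL.rn χ k - ∑ k ∈ Finset.range (n + 1), CL.rn χ k‖ ≤
      (4 * ∑' k : ℕ, 1 / (k : ℝ) ^ (17 / 12 : ℝ)) * (n : ℝ) ^ (-(1 / 12) : ℝ) := by
  have hs := CL.rn_summable χ
  have hg : Summable fun k : ℕ => 1 / (k : ℝ) ^ (17 / 12 : ℝ) :=
    Real.summable_one_div_nat_rpow.2 (by norm_num)
  have hn0 : (0 : ℝ) < n := by exact_mod_cast hn
  have h1 := hs.sum_add_tsum_nat_add (n + 1)
  have h2 := hg.sum_add_tsum_nat_add (n + 1)
  have e1 : ∑' k, CL.rn χ k - ∑ k ∈ Finset.range (n + 1), CL.rn χ k =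
      ∑' k, CL.rn χ (k + (n + 1)) := by
    rw [← h1]; ring
  rw [e1]
  have hg' : Summable fun k : ℕ => 1 / ((k + (n + 1) : ℕ) : ℝ) ^ (17 / 12 : ℝ) :=
    (summable_nat_add_iff (n + 1)).2 hg
  have h3 : ‖∑' k, CL.rn χ (k + (n + 1))‖ ≤
      (4 * (n : ℝ) ^ (-(1 / 12) : ℝ)) * ∑' k : ℕ, 1 / ((k + (n + 1) : ℕ) : ℝ) ^ (17 / 12 : ℝ) := by
    refine tsum_of_norm_bounded ((hg'.hasSum).mul_left (4 * (n : ℝ) ^ (-(1 / 12) : ℝ))) fun k => ?_
    refine (rn_norm χ _).trans ?_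
    set m : ℕ := k + (n + 1) with hm
    have hmn : (n : ℝ) ≤ m := by
      have : n ≤ m := by omega
      exact_mod_cast this
    have hm0 : (0 : ℝ) < m := hn0.trans_le hmn
    have e2 : (1 : ℝ) / (m : ℝ) ^ (3 / 2 : ℝ) =
        (m : ℝ) ^ (-(1 / 12) : ℝ) * (1 / (m : ℝ) ^ (17 / 12 : ℝ)) := by
      have a1 : (m : ℝ) ^ (17 / 12 : ℝ) = (m : ℝ) ^ (3 / 2 : ℝ) * (m : ℝ) ^ (-(1 / 12) : ℝ) := by
        rw [← Real.rpow_add hm0]
        norm_num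
      have a2 : (0 : ℝ) < (m : ℝ) ^ (3 / 2 : ℝ) := Real.rpow_pos_of_pos hm0 _
      have a3 : (0 : ℝ) < (m : ℝ) ^ (-(1 / 12) : ℝ) := Real.rpow_pos_of_pos hm0 _
      rw [a1]
      generalize (m : ℝ) ^ (3 / 2 : ℝ) = x at a2 ⊢
      generalize (m : ℝ) ^ (-(1 / 12) : ℝ) = y at a3 ⊢
      field_simp
    rw [e2]
    have h4 : (m : ℝ) ^ (-(1 / 12) : ℝ) ≤ (n : ℝ) ^ (-(1 / 12) : ℝ) :=
      Real.rpow_le_rpow_of_nonpos hn0 hmn (by norm_num)
    have h5 : (0 : ℝ) ≤ 1 / (m : ℝ) ^ (17 / 12 : ℝ) := by positivity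
    rw [mul_assoc]
    exact mul_le_mul_of_nonneg_left (mul_le_mul_of_nonneg_right h4 h5) (by norm_num)
  refine h3.trans ?_
  have h7 : ∑' k : ℕ, 1 / ((k + (n + 1) : ℕ) : ℝ) ^ (17 / 12 : ℝ) ≤
      ∑' k : ℕ, 1 / (k : ℝ) ^ (17 / 12 : ℝ) := by
    have h8 : (0 : ℝ) ≤ ∑ k ∈ Finset.range (n + 1), 1 / (k : ℝ) ^ (17 / 12 : ℝ) :=
      Finset.sum_nonneg fun k _ => by positivity
    linarith
  have h9 : (0 : ℝ) ≤ 4 * (n : ℝ) ^ (-(1 / 12) : ℝ) :=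
    mul_nonneg (by norm_num) (Real.rpow_nonneg hn0.le _)
  refine (mul_le_mul_of_nonneg_left h7 h9).trans (le_of_eq ?_)
  ring

/-- the sum over the primes up to the root -/
lemma st_eq (ψ : DirichletCharacter ℂ q) {n : ℕ} (hn : 1 ≤ n) :
    CL.St ψ (Real.log n / 2) = Q ψ (Nat.sqrt n) := by
  have hn0 : (0 : ℝ) < n := by exact_mod_cast hn
  have e1 : ⌊Real.exp (Real.log n / 2)⌋₊ = Nat.sqrt n := by
    have : Real.exp (Real.log n / 2) = √(n : ℝ) := by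
      rw [Real.sqrt_eq_rpow, Real.rpow_def_of_pos hn0]
      congr 1
      ring
    rw [this, Real.nat_floor_real_sqrt_eq_nat_sqrt]
  unfold CL.St Q
  rw [e1, Finset.sum_filter]
  refine Finset.sum_congr rfl fun k _ => ?_
  unfold CL.cP
  split_ifs
  · rfl
  · simp

end P3

theorem pc_eq3 {q : ℕ} [NeZero q] (χ : DirichletCharacter ℂ q) :
    ∃ (L : ℂ) (C : ℝ), ∀ n : ℕ, 1 ≤ n →
      ‖Pc nP (al χ) (n : ℝ) - U χ n - (1 / 2 : ℂ) * Q (χ ^ 2) (Nat.sqrt n) - L‖ ≤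
        C * (n : ℝ) ^ (-(1 / 12) : ℝ) := by
  obtain ⟨C, hC⟩ := Pool.Agent.TH270.MC.sharp_tailC (CL.csal χ)
  refine ⟨-∑' k, CL.rn χ k, C + 4 * ∑' k : ℕ, 1 / (k : ℝ) ^ (17 / 12 : ℝ), fun n hn => ?_⟩
  have h1 := hC n (by exact_mod_cast hn)
  have h2 := P3.tail χ hn
  rw [CL.ident χ hn, P3.st_eq _ hn, add_mul]
  refine le_trans (le_of_eq ?_) ((norm_add_le _ _).trans (add_le_add h1 h2))
  congr 1
  ring

end Pool.Agent.TH270.CB
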